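import Mathlib

open Cardinal Set Filter Topology

namespace Pool.Agent.Lib.P92898d

/-- The subsum of the series `x` selected by the 0-1 sequence `ε`. -/
noncomputable def ssum (x : ℕ → ℝ) (ε : ℕ → Bool) : ℝ := ∑' n, (if ε n then x n else 0)

/-- The cardinality function of the series `x`. -/
noncomputable def cardF (x : ℕ → ℝ) (t : ℝ) : Cardinal.{0} := #{ε : ℕ → Bool | ssum x ε = t}

theorem summable_sel {x : ℕ → ℝ} (hx : Summable (fun n => |x n|)) (ε : ℕ → Bool) :
    Summable (fun n => if ε n then x n else 0) := by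
  apply Summable.of_norm_bounded hx
  intro n
  split_ifs <;> simp

/-- put a term in front of a sequence -/
def cns {α : Type*} (w : α) (x : ℕ → α) : ℕ → α
  | 0 => w
  | (n+1) => x n

@[simp] theorem cns_zero {α : Type*} (w : α) (x : ℕ → α) : cns w x 0 = w := rfl
@[simp] theorem cns_succ {α : Type*} (w : α) (x : ℕ → α) (n : ℕ) : cns w x (n+1) = x n := rfl

theorem cns_head_tail {α : Type*} (x : ℕ → α) : cns (x 0) (fun n => x (n+1)) = x := by
  funext n; cases n <;> rfl

theorem cns_inj {α : Type*} (w : α) : Function.Injective (cns w : (ℕ → α) → (ℕ → α)) := by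
  intro x y h
  funext n
  have := congrFun h (n+1)
  simpa using this

theorem summable_cns {w : ℝ} {x : ℕ → ℝ} (hx : Summable (fun n => |x n|)) :
    Summable (fun n => |cns w x n|) := by
  rw [← summable_nat_add_iff 1]
  simpa using hx

theorem ssum_cns {w : ℝ} {x : ℕ → ℝ} (hx : Summable (fun n => |x n|)) (b : Bool) (ε : ℕ → Bool) :
    ssum (cns w x) (cns b ε) = (if b then w else 0) + ssum x ε := by
  unfold ssum
  rw [(summable_sel (summable_cns hx) (cns b ε)).tsum_eq_zero_add]
  simp only [cns_zero, cns_succ]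
  try rfl

theorem cardF_cns {w : ℝ} {x : ℕ → ℝ} (hx : Summable (fun n => |x n|)) (t : ℝ) :
    cardF (cns w x) t = cardF x t + cardF x (t - w) := by
  unfold cardF
  have h : {ε : ℕ → Bool | ssum (cns w x) ε = t}
      = (cns false '' {ε : ℕ → Bool | ssum x ε = t}) ∪
        (cns true '' {ε : ℕ → Bool | ssum x ε = t - w}) := by
    ext ε
    simp only [mem_ofPred_eq, mem_union, mem_image]
    constructor
    · intro h
      rw [← cns_head_tail ε, ssum_cns hx] at h
      rcases hb : ε 0 with _ | _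
      · left
        refine ⟨fun n => ε (n+1), ?_, ?_⟩
        · simpa [hb] using h
        · rw [← hb]; exact cns_head_tail ε
      · right
        refine ⟨fun n => ε (n+1), ?_, ?_⟩
        · rw [hb] at h; simp at h; linarith
        · rw [← hb]; exact cns_head_tail ε
    · rintro (⟨δ, hδ, rfl⟩ | ⟨δ, hδ, rfl⟩)
      · rw [ssum_cns hx]; simpa using hδ
      · rw [ssum_cns hx]; simp; linarith
  rw [h, Cardinal.mk_union_of_disjoint]
  · rw [Cardinal.mk_image_eq (cns_inj _), Cardinal.mk_image_eq (cns_inj _)]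
  · rw [Set.disjoint_left]
    rintro ε ⟨δ, -, rfl⟩ ⟨δ', -, h⟩
    have := congrFun h 0
    simp at this

theorem cardF_reflect {x : ℕ → ℝ} (hx : Summable (fun n => |x n|)) (t : ℝ) :
    cardF x ((∑' n, x n) - t) = cardF x t := by
  unfold cardF
  have key : ∀ ε : ℕ → Bool, ssum x (fun n => !(ε n)) = (∑' n, x n) - ssum x ε := by
    intro ε
    unfold ssum
    rw [← (hx.of_abs).tsum_sub (summable_sel hx ε)]
    congr 1
    funext n
    rcases hb : ε n with _ | _ <;> simp [hb]
  have h : {ε : ℕ → Bool | ssum x ε = (∑' n, x n) - t}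
      = (fun (ε : ℕ → Bool) n => !(ε n)) '' {ε : ℕ → Bool | ssum x ε = t} := by
    ext ε
    simp only [mem_ofPred_eq, mem_image]
    constructor
    · intro h
      refine ⟨fun n => !(ε n), ?_, ?_⟩
      · rw [key]; linarith
      · funext n; simp
    · rintro ⟨δ, hδ, rfl⟩
      rw [key]; linarith
  rw [h]
  apply Cardinal.mk_image_eq
  intro ε δ hεδ
  funext n
  have := congrFun hεδ n
  simpa using this

theorem ssum_nonneg {x : ℕ → ℝ} (h0 : ∀ n, 0 ≤ x n) (ε : ℕ → Bool) : 0 ≤ ssum x ε := by
  unfold ssum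
  apply tsum_nonneg
  intro n
  split_ifs
  · exact h0 n
  · exact le_rfl

theorem ssum_le {x : ℕ → ℝ} (hx : Summable (fun n => |x n|)) (h0 : ∀ n, 0 ≤ x n)
    (ε : ℕ → Bool) : ssum x ε ≤ ∑' n, x n := by
  unfold ssum
  apply (summable_sel hx ε).tsum_le_tsum _ hx.of_abs
  intro n
  split_ifs
  · exact le_rfl
  · exact h0 n

theorem cardF_of_neg {x : ℕ → ℝ} (h0 : ∀ n, 0 ≤ x n) {t : ℝ} (ht : t < 0) :
    cardF x t = 0 := by
  unfold cardF
  rw [Cardinal.mk_eq_zero_iff]
  constructor
  rintro ⟨ε, hε⟩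
  have := ssum_nonneg h0 ε
  simp only [mem_ofPred_eq] at hε
  linarith

theorem cardF_of_gt {x : ℕ → ℝ} (hx : Summable (fun n => |x n|)) (h0 : ∀ n, 0 ≤ x n) {t : ℝ}
    (ht : (∑' n, x n) < t) : cardF x t = 0 := by
  unfold cardF
  rw [Cardinal.mk_eq_zero_iff]
  constructor
  rintro ⟨ε, hε⟩
  have := ssum_le hx h0 ε
  simp only [mem_ofPred_eq] at hε
  linarith

theorem cardF_zero {x : ℕ → ℝ} (hx : Summable (fun n => |x n|)) (h0 : ∀ n, 0 < x n) :
    cardF x 0 = 1 := by
  unfold cardF
  rw [Cardinal.eq_one_iff_unique]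
  refine ⟨⟨?_⟩, ⟨⟨fun _ => false, by simp [ssum]⟩⟩⟩
  have key : ∀ ε : ℕ → Bool, ssum x ε = 0 → ε = fun _ => false := by
    intro ε hε
    funext n
    unfold ssum at hε
    have h1 : ∀ n, 0 ≤ (if ε n then x n else 0) := by
      intro n; split_ifs
      · exact (h0 n).le
      · exact le_rfl
    have h2 := (hasSum_zero_iff_of_nonneg h1).1 (hε ▸ (summable_sel hx ε).hasSum)
    have h3 := congrFun h2 n
    by_contra hne
    have : ε n = true := by simpa using hne
    rw [this] at h3
    simp at h3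
    have := h0 n
    linarith
  rintro ⟨ε, hε⟩ ⟨δ, hδ⟩
  simp only [mem_ofPred_eq] at hε hδ
  rw [Subtype.mk.injEq, key ε hε, key δ hδ]

theorem continuous_ssum {x : ℕ → ℝ} (hx : Summable (fun n => |x n|)) :
    Continuous (ssum x) := by
  unfold ssum
  apply continuous_tsum (u := fun n => |x n|)
  · intro n
    have : Continuous (fun b : Bool => if b then x n else (0:ℝ)) := continuous_of_discreteTopology
    exact this.comp (continuous_apply n)
  · exact hx
  · intro n ε
    split_ifs <;> simp

theorem isClosed_fibre {x : ℕ → ℝ} (hx : Summable (fun n => |x n|)) (t : ℝ) :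
    IsClosed {ε : ℕ → Bool | ssum x ε = t} :=
  isClosed_eq (continuous_ssum hx) continuous_const

theorem mk_cantor : #(ℕ → Bool) = 𝔠 := by
  simp

theorem cardF_le (x : ℕ → ℝ) (t : ℝ) : cardF x t ≤ 𝔠 := by
  unfold cardF
  rw [← mk_cantor]
  exact Cardinal.mk_set_le _

theorem polishCantor : PolishSpace (ℕ → Bool) := by
  have : TopologicalSpace.IsCompletelyMetrizableSpace (ℕ → Bool) := by
    have : TopologicalSpace.IsCompletelyMetrizableSpace Bool := inferInstance
    exact TopologicalSpace.IsCompletelyMetrizableSpace.pi_countable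
  constructor

/-- every fibre is countable or of size continuum -/
theorem cardF_trichotomy {x : ℕ → ℝ} (hx : Summable (fun n => |x n|)) (t : ℝ) :
    cardF x t ≤ ℵ₀ ∨ cardF x t = 𝔠 := by
  by_cases hc : {ε : ℕ → Bool | ssum x ε = t}.Countable
  · left
    unfold cardF
    rw [Cardinal.mk_le_aleph0_iff]
    exact hc.to_subtype
  · right
    apply le_antisymm (cardF_le x t)
    have := polishCantor
    obtain ⟨f, hf, -, hinj⟩ := (isClosed_fibre hx t).exists_nat_bool_injection_of_not_countable hc
    unfold cardF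
    rw [← mk_cantor]
    let g : (ℕ → Bool) → {ε : ℕ → Bool | ssum x ε = t} := fun y => ⟨f y, hf ⟨y, rfl⟩⟩
    have hg : Function.Injective g := by
      intro a b hab
      apply hinj
      exact congrArg Subtype.val hab
    exact Cardinal.mk_le_of_injective hg

end Pool.Agent.Lib.P92898d
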