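import Pool.Agent.Lib.P92898d.Ineq

open Cardinal Set

namespace Pool.Agent.Lib.P92898d

def Wset (k j : ℕ) : Set ℕ := {i | (5 * k ≤ i ∧ i < 5 * k + j) ∨ 5 * k + 5 ≤ i}

noncomputable def W (β : ℕ → ℝ) (k j : ℕ) : Submodule ℚ ℝ := Submodule.span ℚ (β '' Wset k j)

noncomputable def GG (β : ℕ → ℝ) (k : ℕ) : Submodule ℚ ℝ :=
  Submodule.span ℚ (β '' {i | 5 * k ≤ i})

theorem GG_succ (β : ℕ → ℝ) (k : ℕ) : GG β (k+1) = W β k 0 := by
  unfold GG W Wset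
  congr 2
  ext i
  simp only [Set.mem_ofPred_eq]
  omega

theorem W_five (β : ℕ → ℝ) (k : ℕ) : W β k 5 = GG β k := by
  unfold GG W Wset
  congr 2
  ext i
  simp only [Set.mem_ofPred_eq]
  omega

theorem W_mono (β : ℕ → ℝ) (k : ℕ) {j j' : ℕ} (h : j ≤ j') : W β k j ≤ W β k j' := by
  apply Submodule.span_mono
  apply Set.image_mono
  intro i hi
  simp only [Wset, Set.mem_ofPred_eq] at hi ⊢
  omega

theorem GG_anti (β : ℕ → ℝ) (k : ℕ) : GG β (k+1) ≤ GG β k := by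
  rw [GG_succ, ← W_five]
  exact W_mono β k (by norm_num)

theorem W_mem (β : ℕ → ℝ) (k j : ℕ) (q : ℚ) : q • β (5 * k + j) ∈ W β k (j+1) := by
  apply Submodule.smul_mem
  apply Submodule.subset_span
  exact ⟨5 * k + j, by simp only [Wset, Set.mem_ofPred_eq]; omega, rfl⟩

theorem W_notin {β : ℕ → ℝ} (hβ : LinearIndependent ℚ β) {k j : ℕ} (hj : j < 5) {y : ℝ}
    (hy : y ∈ W β k j) {q : ℚ} (hq : q ≠ 0) : y + q • β (5 * k + j) ∉ W β k j := by
  intro h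
  have h1 : q • β (5 * k + j) ∈ W β k j := by
    have := (W β k j).sub_mem h hy
    simpa using this
  have h2 : β (5 * k + j) ∈ W β k j := by
    have := (W β k j).smul_mem q⁻¹ h1
    rwa [smul_smul, inv_mul_cancel₀ hq, one_smul] at this
  have h3 : (5 * k + j) ∉ Wset k j := by
    simp only [Wset, Set.mem_ofPred_eq]; omega
  exact hβ.notMem_span_image h3 h2

theorem exists_par (m : ℕ → ℕ) (flag : Bool) : ∃ P : Par, P.m = m ∧ P.flag = flag := by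
  classical
  obtain ⟨β, hβ⟩ := exists_indep
  have hne : ∀ i, β i ≠ 0 := fun i => hβ.ne_zero i
  let StProp : ℕ → ℝ × ℝ × ℝ → Prop := fun k p =>
    (∃ q : ℚ, q ≠ 0 ∧ p.1 = q • β (5 * k + 1)) ∧ (∃ q : ℚ, q ≠ 0 ∧ p.2.1 = q • β (5 * k + 2)) ∧
    (∃ q : ℚ, q ≠ 0 ∧ p.2.2 = q • β (5 * k + 4)) ∧ Ratio ((m k : ℝ) + 1) p.1 p.2.1 p.2.2
  let Lk : ℕ → ℝ × ℝ × ℝ → ℝ × ℝ × ℝ → Prop := fun k p p' =>
    p'.2.2 - p'.1 < p.2.1 - p.1 ∧
    (p.2.1 - p.1) - (p'.2.1 - p'.1) / (1000 * (((m k : ℝ) + 1) + 2)) < p'.2.2 - p'.1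
  have hm1 : ∀ k, (1 : ℝ) ≤ (m k : ℝ) + 1 := fun k => by
    have : (0 : ℝ) ≤ (m k : ℝ) := Nat.cast_nonneg _
    linarith
  have hinit : ∃ p, StProp 0 p := by
    obtain ⟨q1, q2, q4, h1, h2, h4, hR, -, -⟩ := exists_state (hne (5*0+1)) (hne (5*0+2))
      (hne (5*0+4)) (le_refl (1:ℝ)) (hm1 0) (zero_lt_one)
    exact ⟨(q1 • β (5*0+1), q2 • β (5*0+2), q4 • β (5*0+4)), ⟨q1, h1, rfl⟩, ⟨q2, h2, rfl⟩,
      ⟨q4, h4, rfl⟩, hR⟩
  have hnext : ∀ k, ∀ p, StProp k p → ∃ p', StProp (k+1) p' ∧ Lk k p p' := by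
    intro k p hp
    have hE : 0 < p.2.1 - p.1 := by
      have := hp.2.2.2.1
      linarith
    obtain ⟨q1, q2, q4, h1, h2, h4, hR, h5, h6⟩ := exists_state (hne (5*(k+1)+1))
      (hne (5*(k+1)+2)) (hne (5*(k+1)+4)) (hm1 k) (hm1 (k+1)) hE
    exact ⟨(q1 • β (5*(k+1)+1), q2 • β (5*(k+1)+2), q4 • β (5*(k+1)+4)),
      ⟨⟨q1, h1, rfl⟩, ⟨q2, h2, rfl⟩, ⟨q4, h4, rfl⟩, hR⟩, h5, h6⟩
  choose F hF1 hF2 using hnext
  obtain ⟨p0, hp0⟩ := hinit
  let g : ∀ k, {p // StProp k p} := fun k =>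
    Nat.rec (motive := fun k => {p // StProp k p}) ⟨p0, hp0⟩
      (fun k ih => ⟨F k ih.1 ih.2, hF1 k ih.1 ih.2⟩) k
  have hg : ∀ k, Lk k (g k).1 (g (k+1)).1 := fun k => hF2 k (g k).1 (g k).2
  let v : ℕ → ℝ := fun k => (g k).1.1
  let z : ℕ → ℝ := fun k => (g k).1.2.1
  let T : ℕ → ℝ := fun k => (g k).1.2.2
  have hv : ∀ k, ∃ q : ℚ, q ≠ 0 ∧ v k = q • β (5 * k + 1) := fun k => (g k).2.1
  have hz : ∀ k, ∃ q : ℚ, q ≠ 0 ∧ z k = q • β (5 * k + 2) := fun k => (g k).2.2.1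
  have hT : ∀ k, ∃ q : ℚ, q ≠ 0 ∧ T k = q • β (5 * k + 4) := fun k => (g k).2.2.2.1
  have hR : ∀ k, Ratio ((m k : ℝ) + 1) (v k) (z k) (T k) := fun k => (g k).2.2.2.2
  have hL1 : ∀ k, T (k+1) - v (k+1) < z k - v k := fun k => (hg k).1
  have hL2 : ∀ k, (z k - v k) - (z (k+1) - v (k+1)) / (1000 * (((m k : ℝ) + 1) + 2))
    < T (k+1) - v (k+1) := fun k => (hg k).2
  have hδ : ∀ k, 0 < (z (k+1) - v (k+1)) / (1000 * (((m k : ℝ) + 1) + 2)) := by
    intro k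
    apply div_pos
    · have := (hR (k+1)).1; linarith
    · have := hm1 k; linarith
  have hA : ∀ k, 0 ≤ T (k+1) - v (k+1) := by
    intro k
    obtain ⟨r1, r2, r3, r4, r5⟩ := hR (k+1)
    have h := hm1 (k+1)
    have : 0 < v (k+1) := by
      have : 0 ≤ (((m (k+1) : ℝ) + 1) + 1.64) * (z (k+1) - v (k+1)) :=
        mul_nonneg (by linarith) (by linarith)
      linarith
    linarith
  have hexa : ∀ k, ∃ q : ℚ, q ≠ 0 ∧ T (k+1) - v (k+1) < q • β (5 * k + 0) ∧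
      q • β (5 * k + 0) < T (k+1) - v (k+1) +
        (z (k+1) - v (k+1)) / (1000 * (((m k : ℝ) + 1) + 2)) := by
    intro k
    exact exists_mul (hne _) (by have := hδ k; linarith) (hA k)
  have hexξ : ∀ k, ∃ q : ℚ, q ≠ 0 ∧ 0 < q • β (5 * k + 3) ∧
      q • β (5 * k + 3) < (z (k+1) - v (k+1)) / (1000 * (((m k : ℝ) + 1) + 2)) := by
    intro k
    exact exists_mul (hne _) (hδ k) le_rfl
  choose qa hqa0 hqa1 hqa2 using hexa
  choose qx hqx0 hqx1 hqx2 using hexξ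
  let a : ℕ → ℝ := fun k => qa k • β (5 * k + 0)
  let ξ : ℕ → ℝ := fun k => if flag then 0 else qx k • β (5 * k + 3)
  have hξ0 : ∀ k, 0 ≤ ξ k := by
    intro k
    show 0 ≤ (if flag then 0 else qx k • β (5 * k + 3))
    split_ifs
    · exact le_rfl
    · exact (hqx1 k).le
  have hξ1 : ∀ k, ξ k < (z (k+1) - v (k+1)) / (1000 * (((m k : ℝ) + 1) + 2)) := by
    intro k
    show (if flag then 0 else qx k • β (5 * k + 3)) < _
    split_ifs
    · exact hδ k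
    · exact hqx2 k
  have key := fun k => ineqs (hm1 k) (hm1 (k+1)) (hm1 (k+2)) (hR k) (hR (k+1)) (hR (k+2))
    (hL1 k) (hL2 k) (hL1 (k+1)) (hL2 (k+1)) (hqa1 k) (hqa2 k) (hξ0 k) (hξ1 k) (hξ0 (k+1))
  -- memberships
  have mv : ∀ k, v k ∈ W β k 2 := by
    intro k; obtain ⟨q, -, h⟩ := hv k; rw [h]; exact W_mem β k 1 q
  have mz : ∀ k, z k ∈ W β k 3 := by
    intro k; obtain ⟨q, -, h⟩ := hz k; rw [h]; exact W_mem β k 2 q
  have mT : ∀ k, T k ∈ W β k 5 := by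
    intro k; obtain ⟨q, -, h⟩ := hT k; rw [h]; exact W_mem β k 4 q
  have ma : ∀ k, a k ∈ W β k 1 := fun k => W_mem β k 0 (qa k)
  have mξ : ∀ k, ξ k ∈ W β k 4 := by
    intro k
    show (if flag then 0 else qx k • β (5 * k + 3)) ∈ _
    split_ifs
    · exact Submodule.zero_mem _
    · exact W_mem β k 3 (qx k)
  have GW : ∀ k, GG β (k+1) ≤ W β k 0 := fun k => (GG_succ β k).le
  have mG : ∀ k, W β k 5 ≤ GG β k := fun k => (W_five β k).le
  have mv' : ∀ k, v (k+1) ∈ W β k 0 := fun k => GW k (mG (k+1) (W_mono β (k+1) (by norm_num)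
    (mv (k+1))))
  have mz' : ∀ k, z (k+1) ∈ W β k 0 := fun k => GW k (mG (k+1) (W_mono β (k+1) (by norm_num)
    (mz (k+1))))
  have mT' : ∀ k, T (k+1) ∈ W β k 0 := fun k => GW k (mG (k+1) (mT (k+1)))
  have mna : ∀ k, ((m k : ℝ) + 1) * a k ∈ W β k 1 := by
    intro k
    have h1 : ((m k : ℝ) + 1) * a k = ((m k : ℚ) + 1) • a k := by
      rw [Algebra.smul_def]; simp
    rw [h1]
    exact (W β k 1).smul_mem _ (ma k)
  have mb : ∀ k, v k - v (k+1) - ((m k : ℝ) + 1) * a k ∈ W β k 2 := by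
    intro k
    exact (W β k 2).sub_mem ((W β k 2).sub_mem (mv k) (W_mono β k (by norm_num) (mv' k)))
      (W_mono β k (by norm_num) (mna k))
  have mc : ∀ k, z k - (T (k+1) - v (k+1)) ∈ W β k 3 := by
    intro k
    exact (W β k 3).sub_mem (mz k) (W_mono β k (by norm_num) ((W β k 0).sub_mem (mT' k) (mv' k)))
  have md : ∀ k, z k - z (k+1) + ξ k ∈ W β k 4 := by
    intro k
    exact (W β k 4).add_mem ((W β k 4).sub_mem (W_mono β k (by norm_num) (mz k))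
      (W_mono β k (by norm_num) (mz' k))) (mξ k)
  have sp : ∀ k j (x : ℝ), x ∈ W β k j → (ℚ ∙ x) ≤ W β k j := by
    intro k j x hx
    rw [Submodule.span_singleton_le_iff_mem]; exact hx
  have H1 : ∀ k, GG β (k+1) ⊔ ℚ ∙ (a k) ≤ W β k 1 := fun k =>
    sup_le ((GW k).trans (W_mono β k (by norm_num))) (sp k 1 _ (ma k))
  have H2 : ∀ k, GG β (k+1) ⊔ ℚ ∙ (a k) ⊔ ℚ ∙ (v k - v (k+1) - ((m k : ℝ) + 1) * a k)
      ≤ W β k 2 := fun k =>
    sup_le ((H1 k).trans (W_mono β k (by norm_num))) (sp k 2 _ (mb k))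
  have H3 : ∀ k, GG β (k+1) ⊔ ℚ ∙ (a k) ⊔ ℚ ∙ (v k - v (k+1) - ((m k : ℝ) + 1) * a k) ⊔
      ℚ ∙ (z k - (T (k+1) - v (k+1))) ≤ W β k 3 := fun k =>
    sup_le ((H2 k).trans (W_mono β k (by norm_num))) (sp k 3 _ (mc k))
  have H4 : ∀ k, GG β (k+1) ⊔ ℚ ∙ (a k) ⊔ ℚ ∙ (v k - v (k+1) - ((m k : ℝ) + 1) * a k) ⊔
      ℚ ∙ (z k - (T (k+1) - v (k+1))) ⊔ ℚ ∙ (z k - z (k+1) + ξ k) ≤ W β k 4 := fun k =>
    sup_le ((H3 k).trans (W_mono β k (by norm_num))) (sp k 4 _ (md k))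
  refine ⟨{
    m := m
    flag := flag
    v := v
    z := z
    T := T
    a := a
    ξ := ξ
    G := GG β
    v_pos := fun k => (key k).1
    v_lt_z := fun k => (hR k).1
    z_lt_T := fun k => (key k).2.1
    T_half := fun k => (key k).2.2.1
    alpha_pos := hqa1
    a_le := fun k => (key k).2.2.2.1
    gamma_pos := hL1
    b_low := fun k => (key k).2.2.2.2.1
    b_high := fun k => (key k).2.2.2.2.2.1
    b_half := fun k => (key k).2.2.2.2.2.2.1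
    two_b := fun k => (key k).2.2.2.2.2.2.2.1
    b_z := fun k => (key k).2.2.2.2.2.2.2.2.1
    c_lt_d := fun k => (key k).2.2.2.2.2.2.2.2.2.1
    d_le := fun k => (key k).2.2.2.2.2.2.2.2.2.2.1
    d_lt_z := fun k => (key k).2.2.2.2.2.2.2.2.2.2.2.1
    c_half := fun k => (key k).2.2.2.2.2.2.2.2.2.2.2.2.1
    e_low := fun k => (key k).2.2.2.2.2.2.2.2.2.2.2.2.2.1
    e_high := fun k => (key k).2.2.2.2.2.2.2.2.2.2.2.2.2.2.1
    e_d := fun k => (key k).2.2.2.2.2.2.2.2.2.2.2.2.2.2.2.1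
    alpha_win := fun k => (key k).2.2.2.2.2.2.2.2.2.2.2.2.2.2.2.2.1
    gamma_win := fun k => (key k).2.2.2.2.2.2.2.2.2.2.2.2.2.2.2.2.2
    G_anti := GG_anti β
    v_mem := fun k => mG k (W_mono β k (by norm_num) (mv k))
    z_mem := fun k => mG k (W_mono β k (by norm_num) (mz k))
    T_mem := fun k => mG k (mT k)
    a_mem := fun k => mG k (W_mono β k (by norm_num) (ma k))
    ξ_mem := fun k => mG k (W_mono β k (by norm_num) (mξ k))
    a_gen := ?_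
    b_gen := ?_
    c_gen := ?_
    d_gen := ?_
    e_gen := ?_
    ξ_zero := ?_ }, rfl, rfl⟩
  · intro k h
    have h1 : (0 : ℝ) + qa k • β (5 * k + 0) ∈ W β k 0 := by
      rw [zero_add]; exact GW k h
    exact W_notin hβ (by norm_num) (W β k 0).zero_mem (hqa0 k) h1
  · intro k h
    obtain ⟨q, hq, hvk⟩ := hv k
    have h0 : (-v (k+1) - ((m k : ℝ) + 1) * a k) ∈ W β k 1 :=
      (W β k 1).sub_mem ((W β k 1).neg_mem (W_mono β k (by norm_num) (mv' k))) (mna k)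
    apply W_notin hβ (by norm_num) h0 hq
    rw [← hvk]
    have := H1 k h
    have e : -v (k+1) - ((m k : ℝ) + 1) * a k + v k = v k - v (k+1) - ((m k : ℝ) + 1) * a k := by
      ring
    rw [e]; exact this
  · intro k h
    obtain ⟨q, hq, hzk⟩ := hz k
    have h0 : (-(T (k+1) - v (k+1))) ∈ W β k 2 :=
      (W β k 2).neg_mem (W_mono β k (by norm_num) ((W β k 0).sub_mem (mT' k) (mv' k)))
    apply W_notin hβ (by norm_num) h0 hq
    rw [← hzk]
    have := H2 k h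
    have e : -(T (k+1) - v (k+1)) + z k = z k - (T (k+1) - v (k+1)) := by
      ring
    rw [e]; exact this
  · intro hf k h
    have h0 : z k - z (k+1) ∈ W β k 3 :=
      (W β k 3).sub_mem (mz k) (W_mono β k (by norm_num) (mz' k))
    apply W_notin hβ (by norm_num) h0 (hqx0 k)
    have hξk : ξ k = qx k • β (5 * k + 3) := by
      show (if flag then 0 else qx k • β (5 * k + 3)) = _
      rw [hf]; simp
    rw [← hξk]
    exact H3 k h
  · intro k h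
    obtain ⟨q, hq, hTk⟩ := hT k
    have h0 : (-v k - 2 * z k + z (k+1) - ξ k) ∈ W β k 4 := by
      have h2z : 2 * z k ∈ W β k 4 := by
        rw [two_mul]
        exact (W β k 4).add_mem (W_mono β k (by norm_num) (mz k)) (W_mono β k (by norm_num) (mz k))
      exact (W β k 4).sub_mem ((W β k 4).add_mem ((W β k 4).sub_mem ((W β k 4).neg_mem
        (W_mono β k (by norm_num) (mv k))) h2z) (W_mono β k (by norm_num) (mz' k))) (mξ k)
    apply W_notin hβ (by norm_num) h0 hq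
    rw [← hTk]
    have := H4 k h
    have e : -v k - 2 * z k + z (k+1) - ξ k + T k = T k - v k - 2 * z k + z (k+1) - ξ k := by
      ring
    rw [e]; exact this
  · intro hf k
    show (if flag then 0 else qx k • β (5 * k + 3)) = 0
    rw [hf]; simp

/-- ranges realised by series without zero terms -/
theorem exists_series (m : ℕ → ℕ) (flag : Bool) : ∃ x : ℕ → ℝ, Summable (fun n => |x n|) ∧
    Set.range (cardF x) = {y : Cardinal.{0} | y = 0 ∨ y = 𝔠 ∨ y = 1 ∨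
      (∃ j, y = (m j : Cardinal) + 1) ∨ (flag = true ∧ y = ℵ₀)} := by
  obtain ⟨P, hm, hf⟩ := exists_par m flag
  refine ⟨P.mach.sq (0, P.m 0 + 4), P.mach.summable_abs _, ?_⟩
  have h := Par.range_F (P := P)
  have h2 : cardF (P.mach.sq (0, P.m 0 + 4)) = P.F 0 := rfl
  rw [h2, h, ← hm, ← hf]
  rfl

end Pool.Agent.Lib.P92898d
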