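import Pool.Agent.Lib.P92898d.Param

namespace Pool.Agent.Lib.P92898d

theorem ineqs {N N' N'' v z T v' z' T' v'' z'' T'' a ξ ξ' : ℝ} (hN : 1 ≤ N) (hN' : 1 ≤ N')
    (hN'' : 1 ≤ N'')
    (R : Ratio N v z T) (R' : Ratio N' v' z' T') (R'' : Ratio N'' v'' z'' T'')
    (L1 : T' - v' < z - v) (L2 : (z - v) - (z' - v') / (1000 * (N + 2)) < T' - v')
    (L1' : T'' - v'' < z' - v') (L2' : (z' - v') - (z'' - v'') / (1000 * (N' + 2)) < T'' - v'')
    (ha1 : T' - v' < a) (ha2 : a < T' - v' + (z' - v') / (1000 * (N + 2)))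
    (hξ1 : 0 ≤ ξ) (hξ2 : ξ < (z' - v') / (1000 * (N + 2))) (hξ1' : 0 ≤ ξ') :
    0 < v ∧ 2 * z < T ∧ 2 * T' ≤ T ∧ a ≤ T' ∧
    a + v' < v - v' - N * a ∧ v - v' - N * a < 2 * a ∧ v - v' - N * a - a < T' / 2 ∧
    2 * (v - v' - N * a) ≤ v + z' ∧ z' + (v - v' - N * a) - (T' - v') ≤ a ∧
    z' - ξ < T' - v' ∧ z - z' + ξ ≤ T' - v' + v ∧ ξ < z' ∧
    z - (T' - v') + T' / 2 < T' - v' + v ∧
    z < T - v - 2 * z + z' - ξ ∧ T - v - 2 * z + z' - ξ < v + z - z' ∧
    (T - v - 2 * z + z' - ξ) - (z - z' + ξ) < z - (T' - v') ∧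
    a - (T' - v') ≤ v'' ∧ z - v - (T' - v') ≤ z' - z'' + ξ' - v' := by
  obtain ⟨r1, r2, r3, r4, r5⟩ := R
  obtain ⟨r1', r2', r3', r4', r5'⟩ := R'
  obtain ⟨r1'', r2'', r3'', r4'', r5''⟩ := R''
  set δ := (z' - v') / (1000 * (N + 2)) with hδ
  have hE' : 0 < z' - v' := by linarith
  have hE'' : 0 < z'' - v'' := by linarith
  have hd : 0 < 1000 * (N + 2) := by linarith
  have hδ0 : 0 < δ := div_pos hE' hd
  have f3 : N * δ = (z' - v') / 1000 - 2 * δ := by
    have : δ * (1000 * (N + 2)) = z' - v' := by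
      rw [hδ]; exact div_mul_cancel₀ _ hd.ne'
    linarith
  have hδ1 : δ ≤ (z' - v') / 3000 := by nlinarith
  have hNpos : 0 < N := by linarith
  set δ' := (z'' - v'') / (1000 * (N' + 2)) with hδ'
  have hd' : 0 < 1000 * (N' + 2) := by linarith
  have hδ'1 : δ' ≤ (z'' - v'') / 3000 := by
    rw [hδ']
    apply div_le_div_of_nonneg_left hE''.le (by norm_num) (by linarith)
  -- bounds of v' against E'
  have g1 : 2.64 * (z' - v') < v' := by
    have : 1 * (z' - v') ≤ N' * (z' - v') := mul_le_mul_of_nonneg_right hN' hE'.le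
    linarith
  have g2 : 2.64 * (z'' - v'') < v'' := by
    have : 1 * (z'' - v'') ≤ N'' * (z'' - v'') := mul_le_mul_of_nonneg_right hN'' hE''.le
    linarith
  have g0 : 2.64 * (z - v) < v := by
    have : 1 * (z - v) ≤ N * (z - v) := mul_le_mul_of_nonneg_right hN (by linarith)
    linarith
  -- A = T' - v'
  have A1 : 3.5 * v' + 2.99 * (z' - v') < T' - v' := by linarith
  have A2 : T' - v' < 3.5 * v' + 3.01 * (z' - v') := by linarith
  have A1'' : 3.5 * v'' + 2.99 * (z'' - v'') < T'' - v'' := by linarith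
  have A2'' : T'' - v'' < 3.5 * v'' + 3.01 * (z'' - v'') := by linarith
  have hA0 : 0 < T' - v' := by linarith
  have f1 : N * (z - v - (T' - v')) < N * δ := mul_lt_mul_of_pos_left (by linarith) hNpos
  have f1' : 0 < N * (z - v - (T' - v')) := mul_pos hNpos (by linarith)
  have f2 : N * (a - (T' - v')) < N * δ := mul_lt_mul_of_pos_left (by linarith) hNpos
  have f2' : 0 < N * (a - (T' - v')) := mul_pos hNpos (by linarith)
  have f4 : 0 ≤ (N - 1) * (T' - v') := mul_nonneg (by linarith) hA0.le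
  have r2e : N * (z - v) + 1.64 * (z - v) < v := by linarith
  have r3e : v < N * (z - v) + 1.66 * (z - v) := by linarith
  refine ⟨by linarith, by linarith, by linarith, by linarith, by linarith, by linarith,
    by linarith, by linarith, by linarith, by linarith, by linarith, by linarith, by linarith,
    by linarith, by linarith, by linarith, by linarith, by linarith⟩

end Pool.Agent.Lib.P92898d
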