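import Pool.Agent.Lib.P92898d.Mach

open Cardinal Set Filter Topology

namespace Pool.Agent.Lib.P92898d

/-- Parameters of the multi-scale construction.  At level `k` there are `m k + 1` copies of `a k`
and one copy each of `b k`, `c k`, `d k`, `e k`. -/
structure Par where
  m : ℕ → ℕ
  flag : Bool
  v : ℕ → ℝ
  z : ℕ → ℝ
  T : ℕ → ℝ
  a : ℕ → ℝ
  ξ : ℕ → ℝ
  G : ℕ → Submodule ℚ ℝ
  -- basic order relations
  v_pos : ∀ k, 0 < v k
  v_lt_z : ∀ k, v k < z k
  z_lt_T : ∀ k, 2 * z k < T k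
  T_half : ∀ k, 2 * T (k+1) ≤ T k
  -- the block of equal terms
  alpha_pos : ∀ k, T (k+1) - v (k+1) < a k
  a_le : ∀ k, a k ≤ T (k+1)
  gamma_pos : ∀ k, T (k+1) - v (k+1) < z k - v k
  b_low : ∀ k, a k + v (k+1) < v k - v (k+1) - (m k + 1) * a k
  b_high : ∀ k, v k - v (k+1) - (m k + 1) * a k < 2 * a k
  b_half : ∀ k, v k - v (k+1) - (m k + 1) * a k - a k < T (k+1) / 2
  two_b : ∀ k, 2 * (v k - v (k+1) - (m k + 1) * a k) ≤ v k + z (k+1)
  b_z : ∀ k, z (k+1) + (v k - v (k+1) - (m k + 1) * a k) - (T (k+1) - v (k+1)) ≤ a k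
  c_lt_d : ∀ k, z (k+1) - ξ k < T (k+1) - v (k+1)
  d_le : ∀ k, z k - z (k+1) + ξ k ≤ T (k+1) - v (k+1) + v k
  d_lt_z : ∀ k, ξ k < z (k+1)
  c_half : ∀ k, z k - (T (k+1) - v (k+1)) + T (k+1) / 2 < T (k+1) - v (k+1) + v k
  e_low : ∀ k, z k < T k - v k - 2 * z k + z (k+1) - ξ k
  e_high : ∀ k, T k - v k - 2 * z k + z (k+1) - ξ k < v k + z k - z (k+1)
  e_d : ∀ k, (T k - v k - 2 * z k + z (k+1) - ξ k) - (z k - z (k+1) + ξ k)
      < z k - (T (k+1) - v (k+1))
  alpha_win : ∀ k, a k - (T (k+1) - v (k+1)) ≤ v (k+2)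
  gamma_win : ∀ k, z k - v k - (T (k+1) - v (k+1)) ≤ z (k+1) - z (k+2) + ξ (k+1) - v (k+1)
  -- genericity
  G_anti : ∀ k, G (k+1) ≤ G k
  v_mem : ∀ k, v k ∈ G k
  z_mem : ∀ k, z k ∈ G k
  T_mem : ∀ k, T k ∈ G k
  a_mem : ∀ k, a k ∈ G k
  ξ_mem : ∀ k, ξ k ∈ G k
  a_gen : ∀ k, a k ∉ G (k+1)
  b_gen : ∀ k, v k - v (k+1) - (m k + 1) * a k ∉ G (k+1) ⊔ ℚ ∙ (a k)
  c_gen : ∀ k, z k - (T (k+1) - v (k+1)) ∉
    G (k+1) ⊔ ℚ ∙ (a k) ⊔ ℚ ∙ (v k - v (k+1) - (m k + 1) * a k)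
  d_gen : flag = false → ∀ k, z k - z (k+1) + ξ k ∉
    G (k+1) ⊔ ℚ ∙ (a k) ⊔ ℚ ∙ (v k - v (k+1) - (m k + 1) * a k) ⊔
      ℚ ∙ (z k - (T (k+1) - v (k+1)))
  e_gen : ∀ k, T k - v k - 2 * z k + z (k+1) - ξ k ∉
    G (k+1) ⊔ ℚ ∙ (a k) ⊔ ℚ ∙ (v k - v (k+1) - (m k + 1) * a k) ⊔
      ℚ ∙ (z k - (T (k+1) - v (k+1))) ⊔ ℚ ∙ (z k - z (k+1) + ξ k)
  ξ_zero : flag = true → ∀ k, ξ k = 0

namespace Par

variable (P : Par)

def b (k : ℕ) : ℝ := P.v k - P.v (k+1) - (P.m k + 1) * P.a k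
def c (k : ℕ) : ℝ := P.z k - (P.T (k+1) - P.v (k+1))
def d (k : ℕ) : ℝ := P.z k - P.z (k+1) + P.ξ k
def e (k : ℕ) : ℝ := P.T k - P.v k - 2 * P.z k + P.z (k+1) - P.ξ k
/-- total of the system after adding `b` -/
def T2 (k : ℕ) : ℝ := P.T (k+1) - P.v (k+1) + P.v k

theorem z_pos (k : ℕ) : 0 < P.z k := (P.v_pos k).trans (P.v_lt_z k)
theorem T_pos (k : ℕ) : 0 < P.T k := by have := P.z_lt_T k; have := P.z_pos k; linarith
theorem a_pos (k : ℕ) : 0 < P.a k := by
  have h1 := P.alpha_pos k; have h2 := P.z_lt_T (k+1); have h3 := P.v_lt_z (k+1)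
  have h4 := P.z_pos (k+1)
  linarith
theorem b_pos (k : ℕ) : 0 < P.b k := by
  have h1 := P.b_low k; have h2 := P.a_pos k; have h3 := P.v_pos (k+1)
  unfold b; linarith
theorem c_eq (k : ℕ) : P.c k = P.v k + (P.z k - P.v k - (P.T (k+1) - P.v (k+1))) := by
  unfold c; ring
theorem v_lt_c (k : ℕ) : P.v k < P.c k := by
  have := P.gamma_pos k; rw [P.c_eq]; linarith
theorem c_pos (k : ℕ) : 0 < P.c k := (P.v_pos k).trans (P.v_lt_c k)
theorem c_lt_d' (k : ℕ) : P.c k < P.d k := by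
  have := P.c_lt_d k; unfold c d; linarith
theorem d_pos (k : ℕ) : 0 < P.d k := (P.c_pos k).trans (P.c_lt_d' k)
theorem d_lt_z' (k : ℕ) : P.d k < P.z k := by
  have := P.d_lt_z k; unfold d; linarith
theorem z_lt_e (k : ℕ) : P.z k < P.e k := P.e_low k
theorem e_pos (k : ℕ) : 0 < P.e k := (P.z_pos k).trans (P.z_lt_e k)

theorem T_le_pow (k : ℕ) : P.T k ≤ P.T 0 * (1/2) ^ k := by
  induction k with
  | zero => simp
  | succ k ih =>
    have := P.T_half k
    rw [pow_succ]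
    have : P.T (k+1) ≤ P.T k / 2 := by linarith
    calc P.T (k+1) ≤ P.T k / 2 := this
      _ ≤ P.T 0 * (1/2)^k / 2 := by linarith
      _ = _ := by ring

theorem T_lim : Tendsto P.T atTop (𝓝 0) := by
  have h1 : Tendsto (fun k => P.T 0 * (1/2 : ℝ)^k) atTop (𝓝 (P.T 0 * 0)) :=
    (tendsto_pow_atTop_nhds_zero_of_lt_one (by norm_num) (by norm_num)).const_mul _
  rw [mul_zero] at h1
  exact squeeze_zero (fun k => (P.T_pos k).le) P.T_le_pow h1

theorem exists_T_lt {t : ℝ} (ht : 0 < t) (k : ℕ) : ∃ j, P.T (k + j) < t := by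
  have h := (P.T_lim.eventually (gt_mem_nhds ht))
  obtain ⟨K, hK⟩ := h.exists_forall_of_atTop
  exact ⟨K, hK _ (Nat.le_add_left _ _)⟩

/-- output term of a state `(k, j)`: `j + 1` is the number of remaining terms of level `k` -/
noncomputable def out (s : ℕ × ℕ) : ℝ :=
  if s.2 ≤ P.m s.1 then P.a s.1
  else if s.2 = P.m s.1 + 1 then P.b s.1
  else if s.2 = P.m s.1 + 2 then P.c s.1
  else if s.2 = P.m s.1 + 3 then P.d s.1
  else P.e s.1

def nxt (s : ℕ × ℕ) : ℕ × ℕ :=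
  match s with
  | (k, 0) => (k+1, P.m (k+1) + 4)
  | (k, j+1) => (k, j)

noncomputable def total (s : ℕ × ℕ) : ℝ :=
  ∑ i ∈ Finset.range (s.2 + 1), P.out (s.1, i) + P.T (s.1 + 1)

theorem out_pos (s : ℕ × ℕ) : 0 < P.out s := by
  unfold out
  split_ifs
  · exact P.a_pos _
  · exact P.b_pos _
  · exact P.c_pos _
  · exact P.d_pos _
  · exact P.e_pos _

theorem out_a {k j : ℕ} (h : j ≤ P.m k) : P.out (k, j) = P.a k := by
  unfold out; simp [h]
theorem out_b (k : ℕ) : P.out (k, P.m k + 1) = P.b k := by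
  unfold out; simp
theorem out_c (k : ℕ) : P.out (k, P.m k + 2) = P.c k := by
  unfold out; simp
theorem out_d (k : ℕ) : P.out (k, P.m k + 3) = P.d k := by
  unfold out; simp
theorem out_e {k j : ℕ} (h : P.m k + 4 ≤ j) : P.out (k, j) = P.e k := by
  unfold out
  simp only
  rw [if_neg (by omega), if_neg (by omega), if_neg (by omega), if_neg (by omega)]

theorem total_succ (k j : ℕ) : P.total (k, j+1) = P.out (k, j+1) + P.total (k, j) := by
  unfold total
  simp only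
  rw [Finset.sum_range_succ]
  ring

theorem total_a {k j : ℕ} (h : j ≤ P.m k) : P.total (k, j) = (j + 1) * P.a k + P.T (k+1) := by
  induction j with
  | zero => simp [total, P.out_a h]
  | succ j ih =>
    rw [P.total_succ, ih (by omega), P.out_a h]
    push_cast
    ring

theorem total_b (k : ℕ) : P.total (k, P.m k + 1) = P.T2 k := by
  rw [P.total_succ, P.total_a le_rfl, P.out_b]
  unfold b T2
  ring

theorem total_c (k : ℕ) : P.total (k, P.m k + 2) = P.v k + P.z k := by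
  rw [P.total_succ, P.total_b, P.out_c]
  unfold c T2
  ring

theorem total_d (k : ℕ) : P.total (k, P.m k + 3) = P.v k + P.z k + P.d k := by
  rw [P.total_succ, P.total_c, P.out_d]
  ring

theorem total_e (k : ℕ) : P.total (k, P.m k + 4) = P.T k := by
  rw [P.total_succ, P.total_d, P.out_e le_rfl]
  unfold e d
  ring

theorem total_pos (s : ℕ × ℕ) : 0 < P.total s := by
  unfold total
  have h1 : 0 ≤ ∑ i ∈ Finset.range (s.2 + 1), P.out (s.1, i) :=
    Finset.sum_nonneg (fun i _ => (P.out_pos _).le)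
  have := P.T_pos (s.1+1)
  linarith

theorem total_step (s : ℕ × ℕ) : P.total s = P.out s + P.total (P.nxt s) := by
  obtain ⟨k, j⟩ := s
  cases j with
  | zero =>
    show P.total (k, 0) = P.out (k, 0) + P.total (k+1, P.m (k+1) + 4)
    rw [P.total_e]
    simp [total]
  | succ j => exact P.total_succ k j

theorem nxt_iter_reach (k j : ℕ) : P.nxt^[j+1] (k, j) = (k+1, P.m (k+1) + 4) := by
  induction j with
  | zero => rfl
  | succ j ih =>
    rw [Function.iterate_succ_apply]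
    exact ih

theorem nxt_iter_level (s : ℕ × ℕ) (K : ℕ) : ∃ n k, K ≤ n ∧ s.1 + K ≤ k ∧
    P.nxt^[n] s = (k, P.m k + 4) := by
  induction K with
  | zero =>
    obtain ⟨k, j⟩ := s
    exact ⟨j+1, k+1, by omega, by simp, P.nxt_iter_reach k j⟩
  | succ K ih =>
    obtain ⟨n, k, hn, hk, h⟩ := ih
    refine ⟨(P.m k + 4 + 1) + n, k+1, by omega, by omega, ?_⟩
    rw [Function.iterate_add_apply, h]
    exact P.nxt_iter_reach k _

theorem total_anti (s : ℕ × ℕ) {n n' : ℕ} (h : n ≤ n') :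
    P.total (P.nxt^[n'] s) ≤ P.total (P.nxt^[n] s) := by
  induction n', h using Nat.le_induction with
  | base => exact le_rfl
  | succ n' _ ih =>
    rw [Function.iterate_succ_apply']
    have := P.total_step (P.nxt^[n'] s)
    have := P.out_pos (P.nxt^[n'] s)
    linarith

theorem total_lim (s : ℕ × ℕ) : Tendsto (fun n => P.total (P.nxt^[n] s)) atTop (𝓝 0) := by
  rw [Metric.tendsto_atTop]
  intro ε hε
  obtain ⟨j, hj⟩ := P.exists_T_lt hε 0
  obtain ⟨n, k, -, hk, h⟩ := P.nxt_iter_level s j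
  refine ⟨n, fun n' hn' => ?_⟩
  have h1 := P.total_anti s hn'
  rw [h, P.total_e] at h1
  have h2 : P.T k ≤ P.T (0 + j) := by
    have hanti : Antitone P.T := antitone_nat_of_succ_le (fun i => by
      have := P.T_half i; have := P.T_pos (i+1); linarith)
    exact hanti (by omega)
  rw [Real.dist_eq, sub_zero, abs_of_pos (P.total_pos _)]
  linarith

/-- the machine -/
noncomputable def mach : Mach (ℕ × ℕ) where
  f := P.out
  g := P.nxt
  tot := P.total
  pos := P.out_pos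
  step := P.total_step
  lim := P.total_lim

theorem total_mono (k : ℕ) : Monotone (fun j => P.total (k, j)) := by
  apply monotone_nat_of_le_succ
  intro j
  show P.total (k, j) ≤ P.total (k, j+1)
  rw [P.total_succ]
  have := P.out_pos (k, j+1)
  linarith

theorem kakeya (s : ℕ × ℕ) : P.mach.f s ≤ P.mach.tot (P.mach.g s) := by
  show P.out s ≤ P.total (P.nxt s)
  obtain ⟨k, j⟩ := s
  have ha := P.a_le k
  have hap := P.a_pos k
  cases j with
  | zero =>
    show P.out (k, 0) ≤ P.total (k+1, P.m (k+1) + 4)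
    rw [P.total_e, P.out_a (Nat.zero_le _)]
    exact ha
  | succ j =>
    show P.out (k, j+1) ≤ P.total (k, j)
    rcases lt_trichotomy (j+1) (P.m k + 1) with h | h | h
    · rw [P.out_a (by omega), P.total_a (by omega)]
      have : 0 ≤ (j : ℝ) * P.a k := by positivity
      linarith
    · have hj : j = P.m k := by omega
      subst hj
      rw [P.out_b, P.total_a le_rfl]
      have h1 := P.b_high k
      have : 0 ≤ (P.m k : ℝ) * P.a k := by positivity
      unfold b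
      linarith
    · rcases lt_trichotomy (j+1) (P.m k + 2) with h' | h' | h'
      · omega
      · have hj : j = P.m k + 1 := by omega
        subst hj
        rw [P.out_c, P.total_b]
        have h1 := P.c_half k
        have := P.T_pos (k+1)
        unfold c T2
        linarith
      · rcases lt_trichotomy (j+1) (P.m k + 3) with h'' | h'' | h''
        · omega
        · have hj : j = P.m k + 2 := by omega
          subst hj
          rw [P.out_d, P.total_c]
          have := P.d_lt_z' k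
          have := P.v_pos k
          linarith
        · rw [P.out_e (by omega)]
          have h1 : P.total (k, P.m k + 3) ≤ P.total (k, j) := P.total_mono k (by omega)
          rw [P.total_d] at h1
          have h2 := P.e_high k
          have := P.z_pos (k+1)
          have := P.d_pos k
          unfold e
          linarith

/-- cardinality function of the system of levels `≥ k` -/
noncomputable def F (k : ℕ) (t : ℝ) : Cardinal.{0} := P.mach.CF (k, P.m k + 4) t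
noncomputable def F4 (k : ℕ) (t : ℝ) : Cardinal.{0} := P.mach.CF (k, P.m k + 3) t
noncomputable def F3 (k : ℕ) (t : ℝ) : Cardinal.{0} := P.mach.CF (k, P.m k + 2) t
noncomputable def F2 (k : ℕ) (t : ℝ) : Cardinal.{0} := P.mach.CF (k, P.m k + 1) t
noncomputable def F1 (k : ℕ) (t : ℝ) : Cardinal.{0} := P.mach.CF (k, P.m k) t

theorem F_step (k : ℕ) (t : ℝ) : P.F k t = P.F4 k t + P.F4 k (t - P.e k) := by
  have := P.mach.CF_step (k, P.m k + 4) t
  unfold F F4
  rw [this]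
  show P.mach.CF (k, P.m k + 3) t + P.mach.CF (k, P.m k + 3) (t - P.out (k, P.m k + 4)) = _
  rw [P.out_e le_rfl]

theorem F4_step (k : ℕ) (t : ℝ) : P.F4 k t = P.F3 k t + P.F3 k (t - P.d k) := by
  have := P.mach.CF_step (k, P.m k + 3) t
  unfold F4 F3
  rw [this]
  show P.mach.CF (k, P.m k + 2) t + P.mach.CF (k, P.m k + 2) (t - P.out (k, P.m k + 3)) = _
  rw [P.out_d]

theorem F3_step (k : ℕ) (t : ℝ) : P.F3 k t = P.F2 k t + P.F2 k (t - P.c k) := by
  have := P.mach.CF_step (k, P.m k + 2) t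
  unfold F3 F2
  rw [this]
  show P.mach.CF (k, P.m k + 1) t + P.mach.CF (k, P.m k + 1) (t - P.out (k, P.m k + 2)) = _
  rw [P.out_c]

theorem F2_step (k : ℕ) (t : ℝ) : P.F2 k t = P.F1 k t + P.F1 k (t - P.b k) := by
  have := P.mach.CF_step (k, P.m k + 1) t
  unfold F2 F1
  rw [this]
  show P.mach.CF (k, P.m k) t + P.mach.CF (k, P.m k) (t - P.out (k, P.m k + 1)) = _
  rw [P.out_b]

theorem F1_aux (k : ℕ) : ∀ j, j ≤ P.m k → ∀ t, t < 2 * P.a k →
    P.mach.CF (k, j) t = P.F (k+1) t + ((j : Cardinal) + 1) * P.F (k+1) (t - P.a k) := by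
  intro j
  induction j with
  | zero =>
    intro hj t ht
    rw [P.mach.CF_step (k, 0) t]
    show P.mach.CF (k+1, P.m (k+1) + 4) t + P.mach.CF (k+1, P.m (k+1) + 4) (t - P.out (k, 0)) = _
    rw [P.out_a hj]
    unfold F
    simp
  | succ j ih =>
    intro hj t ht
    rw [P.mach.CF_step (k, j+1) t]
    show P.mach.CF (k, j) t + P.mach.CF (k, j) (t - P.out (k, j+1)) = _
    rw [P.out_a hj, ih (by omega) t ht, ih (by omega) (t - P.a k) (by have := P.a_pos k; linarith)]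
    have h0 : P.F (k+1) (t - P.a k - P.a k) = 0 := P.mach.CF_neg _ (by linarith)
    rw [h0]
    push_cast
    ring

theorem F1_eq (k : ℕ) {t : ℝ} (ht : t < 2 * P.a k) :
    P.F1 k t = P.F (k+1) t + ((P.m k : Cardinal) + 1) * P.F (k+1) (t - P.a k) :=
  P.F1_aux k _ le_rfl t ht

theorem F_reflect (k : ℕ) (t : ℝ) : P.F k (P.T k - t) = P.F k t := by
  have := P.mach.CF_reflect (k, P.m k + 4) t
  rw [show P.mach.tot (k, P.m k + 4) = P.T k from P.total_e k] at this
  exact this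

theorem F2_reflect (k : ℕ) (t : ℝ) : P.F2 k (P.T2 k - t) = P.F2 k t := by
  have := P.mach.CF_reflect (k, P.m k + 1) t
  rw [show P.mach.tot (k, P.m k + 1) = P.T2 k from P.total_b k] at this
  exact this

theorem F3_reflect (k : ℕ) (t : ℝ) : P.F3 k (P.v k + P.z k - t) = P.F3 k t := by
  have := P.mach.CF_reflect (k, P.m k + 2) t
  rw [show P.mach.tot (k, P.m k + 2) = P.v k + P.z k from P.total_c k] at this
  exact this

theorem F_zero_of_neg (k : ℕ) {t : ℝ} (ht : t < 0) : P.F k t = 0 := P.mach.CF_neg _ ht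
theorem F4_zero_of_neg (k : ℕ) {t : ℝ} (ht : t < 0) : P.F4 k t = 0 := P.mach.CF_neg _ ht
theorem F3_zero_of_neg (k : ℕ) {t : ℝ} (ht : t < 0) : P.F3 k t = 0 := P.mach.CF_neg _ ht
theorem F2_zero_of_neg (k : ℕ) {t : ℝ} (ht : t < 0) : P.F2 k t = 0 := P.mach.CF_neg _ ht
theorem F1_zero_of_neg (k : ℕ) {t : ℝ} (ht : t < 0) : P.F1 k t = 0 := P.mach.CF_neg _ ht
theorem F_zero_of_gt (k : ℕ) {t : ℝ} (ht : P.T k < t) : P.F k t = 0 :=
  P.mach.CF_gt _ (by rw [show P.mach.tot (k, P.m k + 4) = P.T k from P.total_e k]; exact ht)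
theorem F_zero (k : ℕ) : P.F k 0 = 1 := P.mach.CF_zero _

theorem F_ne (k : ℕ) {t : ℝ} (h0 : 0 ≤ t) (h1 : t ≤ P.T k) : P.F k t ≠ 0 :=
  P.mach.CF_ne_zero P.kakeya _ h0 (by
    rw [show P.mach.tot (k, P.m k + 4) = P.T k from P.total_e k]; exact h1)
theorem F4_ne (k : ℕ) {t : ℝ} (h0 : 0 ≤ t) (h1 : t ≤ P.v k + P.z k + P.d k) : P.F4 k t ≠ 0 :=
  P.mach.CF_ne_zero P.kakeya _ h0 (by
    rw [show P.mach.tot (k, P.m k + 3) = _ from P.total_d k]; exact h1)
theorem F3_ne (k : ℕ) {t : ℝ} (h0 : 0 ≤ t) (h1 : t ≤ P.v k + P.z k) : P.F3 k t ≠ 0 :=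
  P.mach.CF_ne_zero P.kakeya _ h0 (by
    rw [show P.mach.tot (k, P.m k + 2) = _ from P.total_c k]; exact h1)
theorem F2_ne (k : ℕ) {t : ℝ} (h0 : 0 ≤ t) (h1 : t ≤ P.T2 k) : P.F2 k t ≠ 0 :=
  P.mach.CF_ne_zero P.kakeya _ h0 (by
    rw [show P.mach.tot (k, P.m k + 1) = _ from P.total_b k]; exact h1)
theorem F1_ne (k : ℕ) {t : ℝ} (h0 : 0 ≤ t) (h1 : t ≤ (P.m k + 1) * P.a k + P.T (k+1)) :
    P.F1 k t ≠ 0 :=
  P.mach.CF_ne_zero P.kakeya _ h0 (by
    rw [show P.mach.tot (k, P.m k) = _ from P.total_a le_rfl]; exact h1)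

theorem F_eq_F4 (k : ℕ) {t : ℝ} (ht : t < P.e k) : P.F k t = P.F4 k t := by
  rw [P.F_step, P.F4_zero_of_neg k (t := t - P.e k) (by linarith), add_zero]
theorem F4_eq_F3 (k : ℕ) {t : ℝ} (ht : t < P.d k) : P.F4 k t = P.F3 k t := by
  rw [P.F4_step, P.F3_zero_of_neg k (t := t - P.d k) (by linarith), add_zero]
theorem F3_eq_F2 (k : ℕ) {t : ℝ} (ht : t < P.c k) : P.F3 k t = P.F2 k t := by
  rw [P.F3_step, P.F2_zero_of_neg k (t := t - P.c k) (by linarith), add_zero]
theorem F2_eq_F1 (k : ℕ) {t : ℝ} (ht : t < P.b k) : P.F2 k t = P.F1 k t := by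
  rw [P.F2_step, P.F1_zero_of_neg k (t := t - P.b k) (by linarith), add_zero]
theorem F1_eq_F (k : ℕ) {t : ℝ} (ht : t < P.a k) : P.F1 k t = P.F (k+1) t := by
  rw [P.F1_eq k (by have := P.a_pos k; linarith), P.F_zero_of_neg (k+1) (t := t - P.a k) (by linarith)]
  simp
theorem F_eq_F2 (k : ℕ) {t : ℝ} (ht : t < P.c k) : P.F k t = P.F2 k t := by
  have h1 := P.c_lt_d' k
  have h2 := P.d_lt_z' k
  have h3 := P.z_lt_e k
  rw [P.F_eq_F4 k (by linarith), P.F4_eq_F3 k (by linarith), P.F3_eq_F2 k ht]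

end Par

end Pool.Agent.Lib.P92898d
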