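import Pool.Agent.Lib.P92898d.Basic

open Cardinal Set Filter Topology

namespace Pool.Agent.Lib.P92898d

/-- A deterministic machine producing a sequence of positive terms with known tail sums. -/
structure Mach (σ : Type) where
  f : σ → ℝ
  g : σ → σ
  tot : σ → ℝ
  pos : ∀ s, 0 < f s
  step : ∀ s, tot s = f s + tot (g s)
  lim : ∀ s, Tendsto (fun n => tot (g^[n] s)) atTop (𝓝 0)

namespace Mach

variable {σ : Type} (M : Mach σ)

/-- the sequence produced from the state `s` -/
def sq (s : σ) (n : ℕ) : ℝ := M.f (M.g^[n] s)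

theorem sq_eq (s : σ) : M.sq s = cns (M.f s) (M.sq (M.g s)) := by
  funext n
  cases n <;> rfl

theorem sq_pos (s : σ) (n : ℕ) : 0 < M.sq s n := M.pos _

theorem sq_add (s : σ) (m i : ℕ) : M.sq s (i + m) = M.sq (M.g^[m] s) i := by
  unfold sq
  rw [Function.iterate_add_apply]

theorem partial_sum (s : σ) (n : ℕ) :
    ∑ i ∈ Finset.range n, M.sq s i = M.tot s - M.tot (M.g^[n] s) := by
  induction n with
  | zero => simp
  | succ n ih =>
    rw [Finset.sum_range_succ, ih, Function.iterate_succ_apply']
    have := M.step (M.g^[n] s)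
    unfold sq
    linarith

theorem hasSum (s : σ) : HasSum (M.sq s) (M.tot s) := by
  rw [hasSum_iff_tendsto_nat_of_nonneg (fun n => (M.sq_pos s n).le)]
  simp only [M.partial_sum s]
  have := (M.lim s).const_sub (M.tot s)
  simpa using this

theorem summable (s : σ) : Summable (M.sq s) := (M.hasSum s).summable

theorem summable_abs (s : σ) : Summable (fun n => |M.sq s n|) := by
  have : (fun n => |M.sq s n|) = M.sq s := by
    funext n; exact abs_of_pos (M.sq_pos s n)
  rw [this]; exact M.summable s

theorem tsum_eq (s : σ) : ∑' n, M.sq s n = M.tot s := (M.hasSum s).tsum_eq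

theorem tot_nonneg (s : σ) : 0 ≤ M.tot s := by
  rw [← M.tsum_eq]; exact tsum_nonneg (fun n => (M.sq_pos s n).le)

/-- cardinality function of the sequence from the state `s` -/
noncomputable def CF (s : σ) (t : ℝ) : Cardinal.{0} := cardF (M.sq s) t

theorem CF_step (s : σ) (t : ℝ) : M.CF s t = M.CF (M.g s) t + M.CF (M.g s) (t - M.f s) := by
  unfold CF
  rw [M.sq_eq s, cardF_cns (M.summable_abs _)]

theorem CF_neg (s : σ) {t : ℝ} (ht : t < 0) : M.CF s t = 0 :=
  cardF_of_neg (fun n => (M.sq_pos s n).le) ht

theorem CF_gt (s : σ) {t : ℝ} (ht : M.tot s < t) : M.CF s t = 0 :=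
  cardF_of_gt (M.summable_abs s) (fun n => (M.sq_pos s n).le) (by rw [M.tsum_eq]; exact ht)

theorem CF_reflect (s : σ) (t : ℝ) : M.CF s (M.tot s - t) = M.CF s t := by
  unfold CF
  rw [← M.tsum_eq s]
  exact cardF_reflect (M.summable_abs s) t

theorem CF_zero (s : σ) : M.CF s 0 = 1 := cardF_zero (M.summable_abs s) (M.sq_pos s)

theorem CF_range (s : σ) {t : ℝ} (h : M.CF s t ≠ 0) : 0 ≤ t ∧ t ≤ M.tot s := by
  constructor
  · by_contra hc
    exact h (M.CF_neg s (not_le.1 hc))
  · by_contra hc
    exact h (M.CF_gt s (not_le.1 hc))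

theorem CF_ne_zero (hK : ∀ s, M.f s ≤ M.tot (M.g s)) (s : σ) {t : ℝ} (h0 : 0 ≤ t)
    (h1 : t ≤ M.tot s) : M.CF s t ≠ 0 := by
  classical
  let nx : σ × ℝ → σ × ℝ := fun q =>
    (M.g q.1, if q.2 ≤ M.tot (M.g q.1) then q.2 else q.2 - M.f q.1)
  let st : ℕ → σ × ℝ := fun n => nx^[n] (s, t)
  have hst1 : ∀ n, (st n).1 = M.g^[n] s := by
    intro n
    induction n with
    | zero => rfl
    | succ n ih =>
      show (nx^[n+1] (s, t)).1 = _
      rw [Function.iterate_succ_apply', Function.iterate_succ_apply']
      show M.g (st n).1 = _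
      rw [ih]
  have hst2 : ∀ n, (st (n+1)).2 = if (st n).2 ≤ M.tot (M.g (st n).1) then (st n).2
      else (st n).2 - M.f (st n).1 := by
    intro n
    show (nx^[n+1] (s, t)).2 = _
    rw [Function.iterate_succ_apply']
  have hr : ∀ n, 0 ≤ (st n).2 ∧ (st n).2 ≤ M.tot (M.g^[n] s) := by
    intro n
    induction n with
    | zero => exact ⟨h0, h1⟩
    | succ n ih =>
      rw [hst2 n, hst1 n]
      have hs := M.step (M.g^[n] s)
      have hk := hK (M.g^[n] s)
      rw [Function.iterate_succ_apply']
      split_ifs with hif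
      · exact ⟨ih.1, hif⟩
      · constructor
        · push Not at hif; linarith
        · linarith [ih.2]
  let ε : ℕ → Bool := fun n => decide (¬ (st n).2 ≤ M.tot (M.g (st n).1))
  have hpart : ∀ n, ∑ i ∈ Finset.range n, (if ε i then M.sq s i else 0) = t - (st n).2 := by
    intro n
    induction n with
    | zero => simp [st]
    | succ n ih =>
      rw [Finset.sum_range_succ, ih, hst2 n]
      have hf : M.sq s n = M.f (st n).1 := by rw [hst1 n]; rfl
      by_cases hif : (st n).2 ≤ M.tot (M.g (st n).1)
      · have : ε n = false := by simp [ε, hif]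
        simp [this, hif]
      · have : ε n = true := by simp only [ε, hif, not_false_eq_true, decide_true]
        simp [this, hif, hf]
        ring
  have hlim : Tendsto (fun n => (st n).2) atTop (𝓝 0) :=
    squeeze_zero (fun n => (hr n).1) (fun n => (hr n).2) (M.lim s)
  have hsum : HasSum (fun i => if ε i then M.sq s i else 0) t := by
    rw [hasSum_iff_tendsto_nat_of_nonneg]
    · simp only [hpart]
      simpa using hlim.const_sub t
    · intro i
      split_ifs
      · exact (M.sq_pos s i).le
      · exact le_rfl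
  unfold CF cardF
  rw [Cardinal.mk_ne_zero_iff]
  exact ⟨⟨ε, hsum.tsum_eq⟩⟩

theorem ssum_split (s : σ) (m : ℕ) (ε : ℕ → Bool) :
    ssum (M.sq s) ε = ∑ i ∈ Finset.range m, (if ε i then M.sq s i else 0)
      + ssum (M.sq (M.g^[m] s)) (fun i => ε (i + m)) := by
  unfold ssum
  rw [← (summable_sel (M.summable_abs s) ε).sum_add_tsum_nat_add m]
  congr 1
  apply tsum_congr
  intro i
  rw [M.sq_add]

/-- If residuals with a unique representation lie in `G`, then every point outside `G` has
continuum many representations. -/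
theorem CF_continuum (hK : ∀ s, M.f s ≤ M.tot (M.g s)) (s : σ) (G : AddSubgroup ℝ)
    (hG : ∀ n, M.sq s n ∈ G)
    (hU : ∀ N, ∃ m, N ≤ m ∧ ∀ r, M.CF (M.g^[m] s) r = 1 → r ∈ G)
    {t : ℝ} (h0 : 0 ≤ t) (h1 : t ≤ M.tot s) (ht : t ∉ G) : M.CF s t = 𝔠 := by
  have := polishCantor
  let C : Set (ℕ → Bool) := {ε : ℕ → Bool | ssum (M.sq s) ε = t}
  have hclosed : IsClosed C := isClosed_fibre (M.summable_abs s) t
  have hne : C.Nonempty := by
    have := M.CF_ne_zero hK s h0 h1
    unfold CF cardF at this
    rw [Cardinal.mk_ne_zero_iff] at this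
    obtain ⟨⟨ε, hε⟩⟩ := this
    exact ⟨ε, hε⟩
  have hperf : Perfect C := by
    refine ⟨hclosed, ?_⟩
    intro ε hε
    rw [accPt_iff_nhds]
    intro U hU'
    obtain ⟨V, hV, hεV, hVU⟩ := (PiNat.isTopologicalBasis_cylinders
      (fun _ : ℕ => Bool)).mem_nhds_iff.1 hU'
    obtain ⟨y, n, rfl⟩ := hV
    obtain ⟨m, hm, hmU⟩ := hU n
    set r := ssum (M.sq (M.g^[m] s)) (fun i => ε (i + m)) with hr
    have hsplit := M.ssum_split s m ε
    have hεt : ssum (M.sq s) ε = t := hε
    have hrG : r ∉ G := by
      intro hrG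
      apply ht
      rw [← hεt, hsplit]
      apply G.add_mem _ hrG
      apply G.sum_mem
      intro i _
      split_ifs
      · exact hG i
      · exact G.zero_mem
    have hne1 : M.CF (M.g^[m] s) r ≠ 1 := fun h => hrG (hmU r h)
    have hex : ∃ δ : ℕ → Bool, ssum (M.sq (M.g^[m] s)) δ = r ∧ δ ≠ (fun i => ε (i + m)) := by
      by_contra hcon
      push Not at hcon
      apply hne1
      unfold CF cardF
      rw [Cardinal.eq_one_iff_unique]
      refine ⟨⟨?_⟩, ⟨⟨fun i => ε (i + m), rfl⟩⟩⟩
      rintro ⟨a, ha⟩ ⟨b, hb⟩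
      rw [Subtype.mk.injEq, hcon a ha, hcon b hb]
    obtain ⟨δ, hδ, hδne⟩ := hex
    refine ⟨fun i => if i < m then ε i else δ (i - m), ⟨?_, ?_⟩, ?_⟩
    · apply hVU
      rw [PiNat.mem_cylinder_iff] at hεV ⊢
      intro i hi
      have : i < m := lt_of_lt_of_le hi hm
      simp only [this, if_true]
      exact hεV i hi
    · show ssum (M.sq s) _ = t
      rw [M.ssum_split s m, ← hεt, hsplit]
      congr 1
      · apply Finset.sum_congr rfl
        intro i hi
        have : i < m := Finset.mem_range.1 hi
        simp [this]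
      · rw [← hr, ← hδ]
        congr 1
        funext i
        simp
    · intro heq
      apply hδne
      funext i
      have := congrFun heq (i + m)
      simpa using this
  apply le_antisymm (cardF_le _ t)
  let _ := TopologicalSpace.upgradeIsCompletelyMetrizable (ℕ → Bool)
  obtain ⟨f, hf, -, hinj⟩ := hperf.exists_nat_bool_injection hne
  unfold cardF
  rw [← mk_cantor]
  let g : (ℕ → Bool) → {ε : ℕ → Bool | ssum (M.sq s) ε = t} := fun y => ⟨f y, hf ⟨y, rfl⟩⟩
  have hg : Function.Injective g := by
    intro a b hab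
    apply hinj
    exact congrArg Subtype.val hab
  exact Cardinal.mk_le_of_injective hg

theorem ssum_head (s : σ) (ε : ℕ → Bool) :
    ssum (M.sq s) ε = (if ε 0 then M.f s else 0) + ssum (M.sq (M.g s)) (fun i => ε (i+1)) := by
  conv_lhs => rw [← cns_head_tail ε, M.sq_eq s]
  rw [ssum_cns (M.summable_abs _)]

/-- forced path: at most one representation -/
theorem path_unique (P : σ → ℝ → Prop)
    (h : ∀ s r, P s r → (M.CF (M.g s) r = 0 ∧ P (M.g s) (r - M.f s)) ∨
      (M.CF (M.g s) (r - M.f s) = 0 ∧ P (M.g s) r)) :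
    ∀ s r, P s r → M.CF s r ≤ 1 := by
  have key : ∀ i : ℕ, ∀ s r (ε δ : ℕ → Bool), P s r → ssum (M.sq s) ε = r →
      ssum (M.sq s) δ = r → ε i = δ i := by
    intro i
    induction i with
    | zero =>
      intro s r ε δ hP hε hδ
      rw [M.ssum_head] at hε hδ
      have hno : ∀ (q : ℝ), M.CF (M.g s) q = 0 → ∀ ε' : ℕ → Bool,
          ssum (M.sq (M.g s)) ε' ≠ q := by
        intro q hq ε' he
        unfold CF cardF at hq
        rw [Cardinal.mk_eq_zero_iff] at hq
        exact hq.false ⟨ε', he⟩
      rcases h s r hP with ⟨h1, -⟩ | ⟨h1, -⟩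
      · have e1 : ε 0 = true := by
          rcases hb : ε 0 with _ | _
          · exfalso
            rw [hb] at hε
            exact hno r h1 _ (by simpa using hε)
          · rfl
        have e2 : δ 0 = true := by
          rcases hb : δ 0 with _ | _
          · exfalso
            rw [hb] at hδ
            exact hno r h1 _ (by simpa using hδ)
          · rfl
        rw [e1, e2]
      · have e1 : ε 0 = false := by
          rcases hb : ε 0 with _ | _
          · rfl
          · exfalso
            rw [hb] at hε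
            refine hno (r - M.f s) h1 (fun i => ε (i+1)) ?_
            simp at hε; linarith
        have e2 : δ 0 = false := by
          rcases hb : δ 0 with _ | _
          · rfl
          · exfalso
            rw [hb] at hδ
            refine hno (r - M.f s) h1 (fun i => δ (i+1)) ?_
            simp at hδ; linarith
        rw [e1, e2]
    | succ i ih =>
      intro s r ε δ hP hε hδ
      rw [M.ssum_head] at hε hδ
      have hno : ∀ (q : ℝ), M.CF (M.g s) q = 0 → ∀ ε' : ℕ → Bool,
          ssum (M.sq (M.g s)) ε' ≠ q := by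
        intro q hq ε' he
        unfold CF cardF at hq
        rw [Cardinal.mk_eq_zero_iff] at hq
        exact hq.false ⟨ε', he⟩
      rcases h s r hP with ⟨h1, h2⟩ | ⟨h1, h2⟩
      · have e1 : ε 0 = true := by
          rcases hb : ε 0 with _ | _
          · exfalso
            rw [hb] at hε
            exact hno r h1 _ (by simpa using hε)
          · rfl
        have e2 : δ 0 = true := by
          rcases hb : δ 0 with _ | _
          · exfalso
            rw [hb] at hδ
            exact hno r h1 _ (by simpa using hδ)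
          · rfl
        rw [e1] at hε
        rw [e2] at hδ
        simp only [if_true] at hε hδ
        exact ih (M.g s) (r - M.f s) (fun i => ε (i+1)) (fun i => δ (i+1)) h2
          (by linarith) (by linarith)
      · have e1 : ε 0 = false := by
          rcases hb : ε 0 with _ | _
          · rfl
          · exfalso
            rw [hb] at hε
            refine hno (r - M.f s) h1 (fun i => ε (i+1)) ?_
            simp at hε; linarith
        have e2 : δ 0 = false := by
          rcases hb : δ 0 with _ | _
          · rfl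
          · exfalso
            rw [hb] at hδ
            refine hno (r - M.f s) h1 (fun i => δ (i+1)) ?_
            simp at hδ; linarith
        rw [e1] at hε
        rw [e2] at hδ
        exact ih (M.g s) r (fun i => ε (i+1)) (fun i => δ (i+1)) h2
          (by simpa using hε) (by simpa using hδ)
  intro s r hP
  unfold CF cardF
  rw [Cardinal.le_one_iff_subsingleton]
  constructor
  rintro ⟨ε, hε⟩ ⟨δ, hδ⟩
  rw [Subtype.mk.injEq]
  funext i
  exact key i s r ε δ hP hε hδ

/-- path with countable side branches: countably many representations -/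
theorem path_countable (P : σ → ℝ → Prop)
    (h : ∀ s r, P s r → (M.CF (M.g s) r ≤ ℵ₀ ∧ P (M.g s) (r - M.f s)) ∨
      (M.CF (M.g s) (r - M.f s) ≤ ℵ₀ ∧ P (M.g s) r)) :
    ∀ s r, P s r → M.CF s r ≤ ℵ₀ := by
  classical
  have h' : ∀ q : {q : σ × ℝ // P q.1 q.2}, ∃ b : Bool,
      P (M.g q.1.1) (q.1.2 - if b then M.f q.1.1 else 0) ∧
      M.CF (M.g q.1.1) (q.1.2 - if b then 0 else M.f q.1.1) ≤ ℵ₀ := by
    rintro ⟨⟨s, r⟩, hq⟩
    rcases h s r hq with ⟨h1, h2⟩ | ⟨h1, h2⟩
    · exact ⟨true, by simpa using h2, by simpa using h1⟩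
    · exact ⟨false, by simpa using h2, by simpa using h1⟩
  choose b hb1 hb2 using h'
  let nx : {q : σ × ℝ // P q.1 q.2} → {q : σ × ℝ // P q.1 q.2} := fun q =>
    ⟨(M.g q.1.1, q.1.2 - if b q then M.f q.1.1 else 0), hb1 q⟩
  have hD : ∀ n : ℕ, ∀ q : {q : σ × ℝ // P q.1 q.2},
      {ε : ℕ → Bool | ssum (M.sq q.1.1) ε = q.1.2 ∧ (∀ i < n, ε i = b (nx^[i] q)) ∧
        ε n ≠ b (nx^[n] q)}.Countable := by
    intro n
    induction n with
    | zero =>
      intro q
      have hc : {δ : ℕ → Bool | ssum (M.sq (M.g q.1.1)) δ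
          = q.1.2 - if b q then 0 else M.f q.1.1}.Countable := by
        have := hb2 q
        unfold CF cardF at this
        rw [Cardinal.mk_le_aleph0_iff] at this
        exact Set.countable_coe_iff.1 this
      refine (hc.image (cns (!(b q)))).mono ?_
      rintro ε ⟨hε, -, hne⟩
      have hne' : ε 0 ≠ b q := hne
      have e0 : ε 0 = !(b q) := by
        rcases h1 : ε 0 with _ | _ <;> rcases h2 : b q with _ | _ <;> simp_all
      refine ⟨fun i => ε (i+1), ?_, ?_⟩
      · show ssum _ _ = _
        rw [M.ssum_head, e0] at hε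
        rcases h2 : b q with _ | _
        · rw [h2] at hε; simp at hε ⊢; linarith
        · rw [h2] at hε; simp at hε ⊢; linarith
      · rw [← e0]; exact cns_head_tail ε
    | succ n ih =>
      intro q
      refine ((ih (nx q)).image (cns (b q))).mono ?_
      rintro ε ⟨hε, hpre, hne⟩
      have e0 : ε 0 = b q := hpre 0 (Nat.succ_pos n)
      refine ⟨fun i => ε (i+1), ⟨?_, ?_, ?_⟩, ?_⟩
      · show ssum (M.sq (M.g q.1.1)) _ = q.1.2 - if b q then M.f q.1.1 else 0
        rw [M.ssum_head, e0] at hε
        linarith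
      · intro i hi
        have := hpre (i+1) (Nat.succ_lt_succ hi)
        rw [Function.iterate_succ_apply] at this
        exact this
      · rw [Function.iterate_succ_apply] at hne
        exact hne
      · rw [← e0]; exact cns_head_tail ε
  intro s r hP
  let q : {q : σ × ℝ // P q.1 q.2} := ⟨(s, r), hP⟩
  unfold CF cardF
  rw [Cardinal.mk_le_aleph0_iff]
  have hcount : {ε : ℕ → Bool | ssum (M.sq s) ε = r}.Countable := by
    refine ((Set.countable_iUnion (fun n => hD n q)).union
      (Set.countable_singleton (fun n => b (nx^[n] q)))).mono ?_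
    intro ε hε
    by_cases heq : ε = fun n => b (nx^[n] q)
    · right; exact heq
    · left
      have hex : ∃ n, ε n ≠ b (nx^[n] q) := by
        by_contra hcon
        push Not at hcon
        exact heq (funext hcon)
      rw [Set.mem_iUnion]
      refine ⟨Nat.find hex, hε, ?_, Nat.find_spec hex⟩
      intro i hi
      have := Nat.find_min hex hi
      simpa using this
  exact hcount.to_subtype

end Mach

end Pool.Agent.Lib.P92898d
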