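import Pool.Agent.Lib.P92898d.Build

open Cardinal Set

namespace Pool.Agent.Lib.P92898d

/-- `C` is the range of the cardinality function of an absolutely convergent real series. -/
def IsRange (C : Set Cardinal.{0}) : Prop :=
  ∃ x : ℕ → ℝ, Summable (fun n => |x n|) ∧ Set.range (cardF x) = C

/-! ### necessity -/

/-- the subsum of the nonzero terms -/
noncomputable def rsum (x : ℕ → ℝ) (δ : {n // ¬ x n = 0} → Bool) : ℝ :=
  ∑' n : {n // ¬ x n = 0}, (if δ n then x n else 0)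

theorem ssum_eq_rsum (x : ℕ → ℝ) (ε : ℕ → Bool) : ssum x ε = rsum x (fun n => ε n) := by
  unfold ssum rsum
  symm
  apply tsum_subtype_eq_of_support_subset (f := fun n => if ε n then x n else 0)
    (s := {n | ¬ x n = 0})
  intro n hn
  simp only [Function.mem_support] at hn
  show ¬ x n = 0
  intro h
  apply hn
  rw [h]; simp

theorem cardF_eq_mul (x : ℕ → ℝ) (t : ℝ) :
    cardF x t = #({n // x n = 0} → Bool) * #{δ : {n // ¬ x n = 0} → Bool | rsum x δ = t} := by
  classical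
  unfold cardF
  rw [Cardinal.mul_def]
  apply Cardinal.mk_congr
  refine ⟨fun ε => (fun i => ε.1 i.1, ⟨fun i => ε.1 i.1, ?_⟩),
    fun q => ⟨fun n => if h : x n = 0 then q.1 ⟨n, h⟩ else q.2.1 ⟨n, h⟩, ?_⟩, ?_, ?_⟩
  · have := ε.2
    rw [Set.mem_ofPred_eq, ssum_eq_rsum] at this
    exact this
  · rw [Set.mem_ofPred_eq, ssum_eq_rsum]
    have hq : rsum x q.2.1 = t := q.2.2
    have he : (fun n : {n // ¬ x n = 0} => if h : x n.1 = 0 then q.1 ⟨n.1, h⟩ else q.2.1 ⟨n.1, h⟩)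
        = q.2.1 := by
      funext n
      simp [n.2]
    exact (congrArg (rsum x) he).trans hq
  · rintro ⟨ε, h⟩
    rw [Subtype.mk.injEq]
    funext n
    simp
  · rintro ⟨η, ⟨δ, h⟩⟩
    refine Prod.ext ?_ ?_
    · funext i
      simp [i.2]
    · rw [Subtype.mk.injEq]
      funext i
      simp [i.2]

theorem mk_R_le (x : ℕ → ℝ) (t : ℝ) :
    #{δ : {n // ¬ x n = 0} → Bool | rsum x δ = t} ≤ 𝔠 := by
  calc #{δ : {n // ¬ x n = 0} → Bool | rsum x δ = t} ≤ #({n // ¬ x n = 0} → Bool) :=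
        Cardinal.mk_set_le _
    _ = 2 ^ #{n // ¬ x n = 0} := by simp
    _ ≤ 2 ^ ℵ₀ := by
        apply Cardinal.power_le_power_left two_ne_zero
        exact Cardinal.mk_le_aleph0
    _ = 𝔠 := Cardinal.two_power_aleph0

theorem summable_r {x : ℕ → ℝ} (hx : Summable (fun n => |x n|)) (δ : {n // ¬ x n = 0} → Bool) :
    Summable (fun n : {n // ¬ x n = 0} => if δ n then x n else 0) := by
  apply Summable.of_norm_bounded (g := fun n : {n // ¬ x n = 0} => |x n|)
  · exact hx.subtype _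
  · intro n
    split_ifs <;> simp

theorem exists_unique_R {x : ℕ → ℝ} (hx : Summable (fun n => |x n|)) :
    ∃ t, #{δ : {n // ¬ x n = 0} → Bool | rsum x δ = t} = 1 := by
  classical
  let δ₀ : {n // ¬ x n = 0} → Bool := fun n => decide (x n < 0)
  refine ⟨rsum x δ₀, ?_⟩
  rw [Cardinal.eq_one_iff_unique]
  have key : ∀ δ, rsum x δ = rsum x δ₀ → δ = δ₀ := by
    intro δ h
    have h1 : ∑' n : {n // ¬ x n = 0}, ((if δ n then x n else 0) - (if δ₀ n then x n else 0)) = 0 := by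
      rw [(summable_r hx δ).tsum_sub (summable_r hx δ₀)]
      unfold rsum at h
      linarith
    have h2 : ∀ n : {n // ¬ x n = 0},
        0 ≤ (if δ n then x n else 0) - (if δ₀ n then x n else 0) := by
      intro n
      by_cases hneg : x n < 0
      · have : δ₀ n = true := by simp [δ₀, hneg]
        rw [this]
        rcases hb : δ n with _ | _
        · simp; exact hneg.le
        · simp
      · have : δ₀ n = false := by simp [δ₀, hneg]
        rw [this]
        push Not at hneg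
        rcases hb : δ n with _ | _
        · simp
        · simp; exact hneg
    have h3 := (hasSum_zero_iff_of_nonneg h2).1
      (h1 ▸ ((summable_r hx δ).sub (summable_r hx δ₀)).hasSum)
    funext n
    have h4 := congrFun h3 n
    have hn := n.2
    by_cases hneg : x n < 0
    · have e0 : δ₀ n = true := by simp [δ₀, hneg]
      rw [e0] at h4 ⊢
      rcases hb : δ n with _ | _
      · rw [hb] at h4; simp at h4; exact absurd h4 hn
      · rfl
    · have e0 : δ₀ n = false := by simp [δ₀, hneg]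
      rw [e0] at h4 ⊢
      rcases hb : δ n with _ | _
      · rfl
      · rw [hb] at h4; simp at h4; exact absurd h4 hn
  refine ⟨⟨?_⟩, ⟨⟨δ₀, rfl⟩⟩⟩
  rintro ⟨a, ha⟩ ⟨b, hb⟩
  rw [Subtype.mk.injEq, key a ha, key b hb]

theorem cardF_zero_exists {x : ℕ → ℝ} (hx : Summable (fun n => |x n|)) : ∃ t, cardF x t = 0 := by
  refine ⟨(∑' n, |x n|) + 1, ?_⟩
  unfold cardF
  rw [Cardinal.mk_eq_zero_iff]
  constructor
  rintro ⟨ε, hε⟩
  rw [Set.mem_ofPred_eq] at hε
  have : ssum x ε ≤ ∑' n, |x n| := by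
    unfold ssum
    apply (summable_sel hx ε).tsum_le_tsum _ hx
    intro n
    split_ifs
    · exact le_abs_self _
    · exact abs_nonneg _
  linarith

theorem necessity {C : Set Cardinal.{0}} (h : IsRange C) :
    C = {0, 𝔠} ∨ (0 ∈ C ∧ (∀ κ ∈ C, κ < ℵ₀ ∨ κ = ℵ₀ ∨ κ = 𝔠) ∧
      ∃ k : ℕ, ((2 ^ k : ℕ) : Cardinal.{0}) ∈ C ∧ ∀ n : ℕ, (n : Cardinal.{0}) ∈ C → 2 ^ k ∣ n) := by
  obtain ⟨x, hx, rfl⟩ := h
  have h0 : (0 : Cardinal.{0}) ∈ Set.range (cardF x) := by
    obtain ⟨t, ht⟩ := cardF_zero_exists hx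
    exact ⟨t, ht⟩
  have hK : ∀ κ ∈ Set.range (cardF x), κ < ℵ₀ ∨ κ = ℵ₀ ∨ κ = 𝔠 := by
    rintro κ ⟨t, rfl⟩
    rcases cardF_trichotomy hx t with h | h
    · rcases h.lt_or_eq with h' | h'
      · left; exact h'
      · right; left; exact h'
    · right; right; exact h
  by_cases hfin : Finite {n // x n = 0}
  · right
    refine ⟨h0, hK, Nat.card {n // x n = 0}, ?_, ?_⟩
    · obtain ⟨t, ht⟩ := exists_unique_R hx
      refine ⟨t, ?_⟩
      rw [cardF_eq_mul, ht, mul_one]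
      have := Fintype.ofFinite {n // x n = 0}
      simp [Nat.card_eq_fintype_card]
    · rintro n ⟨t, ht⟩
      rw [cardF_eq_mul] at ht
      have := Fintype.ofFinite {n // x n = 0}
      have h2 : #({n // x n = 0} → Bool) = ((2 ^ Nat.card {n // x n = 0} : ℕ) : Cardinal.{0}) := by
        simp [Nat.card_eq_fintype_card]
      rw [h2] at ht
      set R := #{δ : {n // ¬ x n = 0} → Bool | rsum x δ = t} with hR
      have hRfin : R < ℵ₀ := by
        by_contra hcon
        push Not at hcon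
        have h3 : ℵ₀ ≤ ((2 ^ Nat.card {n // x n = 0} : ℕ) : Cardinal.{0}) * R := by
          calc ℵ₀ ≤ R := hcon
            _ = 1 * R := (one_mul R).symm
            _ ≤ _ := by
              gcongr
              exact_mod_cast Nat.one_le_two_pow
        rw [ht] at h3
        exact absurd (Cardinal.natCast_lt_aleph0 (n := n)) (not_lt.2 h3)
      obtain ⟨r, hr⟩ := Cardinal.lt_aleph0.1 hRfin
      rw [hr] at ht
      have h4 : 2 ^ Nat.card {n // x n = 0} * r = n := by exact_mod_cast ht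
      exact ⟨r, h4.symm⟩
  · have hinf : Infinite {n // x n = 0} := not_finite_iff_infinite.1 hfin
    have h2 : #({n // x n = 0} → Bool) = 𝔠 := by
      rw [← Cardinal.power_def]
      simp
    have hval : ∀ t, cardF x t = 0 ∨ cardF x t = 𝔠 := by
      intro t
      rw [cardF_eq_mul, h2]
      by_cases hR : #{δ : {n // ¬ x n = 0} → Bool | rsum x δ = t} = 0
      · left; rw [hR, mul_zero]
      · right
        exact Cardinal.mul_eq_left Cardinal.aleph0_le_continuum (mk_R_le x t) hR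
    left
    ext κ
    simp only [Set.mem_insert_iff, Set.mem_singleton_iff]
    constructor
    · rintro ⟨t, rfl⟩
      exact hval t
    · rintro (rfl | rfl)
      · exact h0
      · obtain ⟨t, ht⟩ := exists_unique_R hx
        refine ⟨t, ?_⟩
        rw [cardF_eq_mul, ht, mul_one, h2]

/-! ### sufficiency -/

theorem prepend_zeros {x : ℕ → ℝ} (hx : Summable (fun n => |x n|)) (k : ℕ) :
    ∃ y : ℕ → ℝ, Summable (fun n => |y n|) ∧
      ∀ t, cardF y t = ((2 ^ k : ℕ) : Cardinal.{0}) * cardF x t := by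
  induction k with
  | zero => exact ⟨x, hx, fun t => by simp⟩
  | succ k ih =>
    obtain ⟨y, hy, h⟩ := ih
    refine ⟨cns 0 y, summable_cns hy, fun t => ?_⟩
    rw [cardF_cns hy, sub_zero, h, pow_succ]
    push_cast
    ring

theorem all_zero : IsRange {0, 𝔠} := by
  refine ⟨fun _ => 0, by simp, ?_⟩
  have h : ∀ ε, ssum (fun _ => 0) ε = 0 := by intro ε; simp [ssum]
  ext κ
  simp only [Set.mem_insert_iff, Set.mem_singleton_iff, Set.mem_range]
  constructor
  · rintro ⟨t, rfl⟩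
    by_cases ht : t = 0
    · right
      subst ht
      unfold cardF
      simp only [h]
      simp
    · left
      unfold cardF
      rw [Cardinal.mk_eq_zero_iff]
      constructor
      rintro ⟨ε, hε⟩
      rw [Set.mem_ofPred_eq, h] at hε
      exact ht hε.symm
  · rintro (rfl | rfl)
    · refine ⟨1, ?_⟩
      unfold cardF
      rw [Cardinal.mk_eq_zero_iff]
      constructor
      rintro ⟨ε, hε⟩
      rw [Set.mem_ofPred_eq, h] at hε
      exact zero_ne_one hε
    · refine ⟨0, ?_⟩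
      unfold cardF
      simp only [h]
      simp

theorem sufficiency {C : Set Cardinal.{0}} (hc : 𝔠 ∈ C) (h0 : 0 ∈ C)
    (hK : ∀ κ ∈ C, κ < ℵ₀ ∨ κ = ℵ₀ ∨ κ = 𝔠) {k : ℕ} (hk : ((2 ^ k : ℕ) : Cardinal.{0}) ∈ C)
    (hdiv : ∀ n : ℕ, (n : Cardinal.{0}) ∈ C → 2 ^ k ∣ n) : IsRange C := by
  classical
  let S : Set ℕ := {s | ((2 ^ k * (s + 1) : ℕ) : Cardinal.{0}) ∈ C}
  have hS0 : (0 : ℕ) ∈ S := by
    show ((2 ^ k * (0 + 1) : ℕ) : Cardinal.{0}) ∈ C
    simpa using hk
  obtain ⟨m, hm⟩ := (Set.to_countable S).exists_eq_range ⟨0, hS0⟩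
  obtain ⟨x, hx, hr⟩ := exists_series m (decide (ℵ₀ ∈ C))
  obtain ⟨y, hy, hyx⟩ := prepend_zeros hx k
  refine ⟨y, hy, ?_⟩
  have hrange : Set.range (cardF y) =
      (fun κ => ((2 ^ k : ℕ) : Cardinal.{0}) * κ) '' Set.range (cardF x) := by
    rw [← Set.range_comp]
    congr 1
    funext t
    exact hyx t
  have h2c : ((2 ^ k : ℕ) : Cardinal.{0}) * 𝔠 = 𝔠 := by
    apply Cardinal.mul_eq_right Cardinal.aleph0_le_continuum (Cardinal.nat_lt_continuum _).le
    simp
  have h2a : ((2 ^ k : ℕ) : Cardinal.{0}) * ℵ₀ = ℵ₀ := Cardinal.nat_mul_aleph0 (by positivity)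
  rw [hrange, hr]
  ext κ
  constructor
  · rintro ⟨κ', hκ', rfl⟩
    rcases hκ' with rfl | rfl | rfl | ⟨j, rfl⟩ | ⟨hf, rfl⟩
    · simpa using h0
    · show ((2 ^ k : ℕ) : Cardinal.{0}) * 𝔠 ∈ C
      rw [h2c]; exact hc
    · show ((2 ^ k : ℕ) : Cardinal.{0}) * 1 ∈ C
      rw [mul_one]; exact hk
    · have hj : m j ∈ S := by rw [hm]; exact ⟨j, rfl⟩
      have hj' : ((2 ^ k * (m j + 1) : ℕ) : Cardinal.{0}) ∈ C := hj
      show ((2 ^ k : ℕ) : Cardinal.{0}) * ((m j : Cardinal.{0}) + 1) ∈ C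
      have e : ((2 ^ k : ℕ) : Cardinal.{0}) * ((m j : Cardinal.{0}) + 1)
          = ((2 ^ k * (m j + 1) : ℕ) : Cardinal.{0}) := by push_cast; ring
      rw [e]; exact hj'
    · show ((2 ^ k : ℕ) : Cardinal.{0}) * ℵ₀ ∈ C
      rw [h2a]
      exact of_decide_eq_true hf
  · intro hκ
    rcases hK κ hκ with h | rfl | rfl
    · obtain ⟨n, rfl⟩ := Cardinal.lt_aleph0.1 h
      rcases Nat.eq_zero_or_pos n with rfl | hn
      · exact ⟨0, Or.inl rfl, by simp⟩
      · obtain ⟨s, hs⟩ := hdiv n hκ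
        have hspos : 0 < s := by
          rcases Nat.eq_zero_or_pos s with rfl | h'
          · simp at hs; omega
          · exact h'
        obtain ⟨s', rfl⟩ : ∃ s', s = s' + 1 := ⟨s - 1, by omega⟩
        have hsS : s' ∈ S := by
          show ((2 ^ k * (s' + 1) : ℕ) : Cardinal.{0}) ∈ C
          rw [← hs]; exact hκ
        rw [hm] at hsS
        obtain ⟨j, hj⟩ := hsS
        refine ⟨(m j : Cardinal.{0}) + 1, Or.inr (Or.inr (Or.inr (Or.inl ⟨j, rfl⟩))), ?_⟩
        show ((2 ^ k : ℕ) : Cardinal.{0}) * ((m j : Cardinal.{0}) + 1) = _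
        rw [hj, hs]
        push_cast
        ring
    · exact ⟨ℵ₀, Or.inr (Or.inr (Or.inr (Or.inr ⟨decide_eq_true hκ, rfl⟩))), h2a⟩
    · exact ⟨𝔠, Or.inr (Or.inl rfl), h2c⟩

/-- Complete description of the ranges containing the continuum. -/
theorem range_iff {C : Set Cardinal.{0}} (hc : 𝔠 ∈ C) :
    IsRange C ↔ (C = {0, 𝔠} ∨ (0 ∈ C ∧ (∀ κ ∈ C, κ < ℵ₀ ∨ κ = ℵ₀ ∨ κ = 𝔠) ∧
      ∃ k : ℕ, ((2 ^ k : ℕ) : Cardinal.{0}) ∈ C ∧
        ∀ n : ℕ, (n : Cardinal.{0}) ∈ C → 2 ^ k ∣ n)) := by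
  constructor
  · exact necessity
  · rintro (rfl | ⟨h0, hK, k, hk, hdiv⟩)
    · exact all_zero
    · exact sufficiency hc h0 hK hk hdiv

end Pool.Agent.Lib.P92898d
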