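import Pool.Agent.Lib.P92898d.Pass2

open Cardinal Set Filter Topology

namespace Pool.Agent.Lib.P92898d

theorem exists_indep : ∃ β : ℕ → ℝ, LinearIndependent ℚ β := by
  let b := Module.Basis.ofVectorSpace ℚ ℝ
  have hcard : #(Module.Basis.ofVectorSpaceIndex ℚ ℝ) = 𝔠 := by
    rw [b.mk_eq_rank'']
    exact Real.rank_rat_real
  have hinf : Infinite (Module.Basis.ofVectorSpaceIndex ℚ ℝ) := by
    rw [Cardinal.infinite_iff, hcard]
    exact Cardinal.aleph0_le_continuum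
  let f := Infinite.natEmbedding (Module.Basis.ofVectorSpaceIndex ℚ ℝ)
  exact ⟨fun n => b (f n), b.linearIndependent.comp f f.injective⟩

theorem exists_mul {β : ℝ} (hβ : β ≠ 0) {lo hi : ℝ} (h : lo < hi) (hlo : 0 ≤ lo) :
    ∃ q : ℚ, q ≠ 0 ∧ lo < q • β ∧ q • β < hi := by
  have hne : ∀ q : ℚ, lo < q • β → q ≠ 0 := by
    rintro q hq rfl
    simp at hq
    linarith
  rcases lt_or_gt_of_ne hβ with hneg | hpos
  · have h1 : hi / β < lo / β := by
      rw [div_lt_div_right_of_neg hneg]; exact h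
    obtain ⟨q, hq1, hq2⟩ := exists_rat_btwn h1
    have e1 : lo < q • β := by
      rw [Rat.smul_def]
      rwa [lt_div_iff_of_neg hneg] at hq2
    have e2 : q • β < hi := by
      rw [Rat.smul_def]
      rwa [div_lt_iff_of_neg hneg] at hq1
    exact ⟨q, hne q e1, e1, e2⟩
  · have h1 : lo / β < hi / β := by
      rw [div_lt_div_iff_of_pos_right hpos]; exact h
    obtain ⟨q, hq1, hq2⟩ := exists_rat_btwn h1
    have e1 : lo < q • β := by
      rw [Rat.smul_def]
      rwa [div_lt_iff₀ hpos] at hq1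
    have e2 : q • β < hi := by
      rw [Rat.smul_def]
      rwa [lt_div_iff₀ hpos] at hq2
    exact ⟨q, hne q e1, e1, e2⟩

/-- ratio conditions inside a level; `N` is the number of equal terms -/
def Ratio (N v z T : ℝ) : Prop :=
  v < z ∧ (N + 1.64) * (z - v) < v ∧ v < (N + 1.66) * (z - v) ∧
    3 * z + 1.5 * v - 0.01 * (z - v) < T ∧ T < 3 * z + 1.5 * v + 0.01 * (z - v)

theorem exists_state {β₁ β₂ β₄ : ℝ} (h1 : β₁ ≠ 0) (h2 : β₂ ≠ 0) (h4 : β₄ ≠ 0) {N N' E : ℝ}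
    (hN : 1 ≤ N) (hN' : 1 ≤ N') (hE : 0 < E) :
    ∃ q1 q2 q4 : ℚ, q1 ≠ 0 ∧ q2 ≠ 0 ∧ q4 ≠ 0 ∧ Ratio N' (q1 • β₁) (q2 • β₂) (q4 • β₄) ∧
      q4 • β₄ - q1 • β₁ < E ∧
      E - (q2 • β₂ - q1 • β₁) / (1000 * (N + 2)) < q4 • β₄ - q1 • β₁ := by
  set Es := E / (3.5 * N' + 8.775) with hEs
  have hden : 0 < 3.5 * N' + 8.775 := by linarith
  have hEs0 : 0 < Es := div_pos hE hden
  have hEeq : E = (3.5 * N' + 8.775) * Es := by
    rw [hEs]; field_simp
  set τ := Es / (1000 * (N' + 3)) with hτ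
  have hd2 : 0 < 1000 * (N' + 3) := by linarith
  have hτ0 : 0 < τ := div_pos hEs0 hd2
  have hτeq : Es = 1000 * (N' + 3) * τ := by
    rw [hτ]; field_simp
  have hτN : N' * τ = Es / 1000 - 3 * τ := by
    rw [hτeq]; ring
  have hτ4 : τ ≤ Es / 4000 := by nlinarith
  have hNE : 0 < N' * Es := by positivity
  obtain ⟨q1, hq1, hv1, hv2⟩ := exists_mul h1 (lo := (N' + 1.65) * Es - τ)
    (hi := (N' + 1.65) * Es + τ) (by linarith) (by nlinarith)
  obtain ⟨q2, hq2, hz1, hz2⟩ := exists_mul h2 (lo := (N' + 2.65) * Es - τ)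
    (hi := (N' + 2.65) * Es + τ) (by linarith) (by nlinarith)
  set v := q1 • β₁ with hv
  set z := q2 • β₂ with hz
  have hE1 : Es - 2 * τ < z - v := by linarith
  have hE2 : z - v < Es + 2 * τ := by linarith
  have hE0 : 0 < z - v := by linarith
  set δ := (z - v) / (1000 * (N + 2)) with hδ
  have hd3 : 0 < 1000 * (N + 2) := by linarith
  have hδ0 : 0 < δ := div_pos hE0 hd3
  have hδ1 : δ ≤ (z - v) / 3000 := by
    rw [hδ]
    apply div_le_div_of_nonneg_left hE0.le (by norm_num) (by linarith)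
  obtain ⟨q4, hq4, hT1, hT2⟩ := exists_mul h4 (lo := v + E - δ)
    (hi := v + E) (by linarith) (by nlinarith)
  refine ⟨q1, q2, q4, hq1, hq2, hq4, ⟨by linarith, ?_, ?_, ?_, ?_⟩, by linarith, by linarith⟩
  · have : (N' + 1.64) * (z - v) ≤ (N' + 1.64) * (Es + 2 * τ) := by
      apply mul_le_mul_of_nonneg_left hE2.le (by linarith)
    nlinarith
  · have : (N' + 1.66) * (Es - 2 * τ) ≤ (N' + 1.66) * (z - v) := by
      apply mul_le_mul_of_nonneg_left hE1.le (by linarith)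
    nlinarith
  · nlinarith
  · nlinarith

end Pool.Agent.Lib.P92898d
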