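import Pool.Agent.Lib.P92898d.Level

open Cardinal Set Filter Topology

namespace Pool.Agent.Lib.P92898d

theorem two_le_add {x y : Cardinal.{0}} (hx : x ≠ 0) (hy : y ≠ 0) : (2 : Cardinal) ≤ x + y := by
  have h1 : (1 : Cardinal) ≤ x := Cardinal.one_le_iff_ne_zero.2 hx
  have h2 : (1 : Cardinal) ≤ y := Cardinal.one_le_iff_ne_zero.2 hy
  calc (2 : Cardinal) = 1 + 1 := by norm_num
    _ ≤ x + y := add_le_add h1 h2

theorem add_ne_one {x y : Cardinal.{0}} (hx : x ≠ 0) (hy : y ≠ 0) : x + y ≠ 1 := by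
  intro h
  have := two_le_add hx hy
  rw [h] at this
  have h2 : (1 : Cardinal) < 2 := by norm_num
  exact absurd this (not_le.2 h2)

theorem add_cont {x y : Cardinal.{0}} (hx : x ≤ 𝔠) (hy : y ≤ 𝔠) (h : x = 𝔠 ∨ y = 𝔠) :
    x + y = 𝔠 := by
  rcases h with rfl | rfl
  · exact Cardinal.add_eq_left Cardinal.aleph0_le_continuum hy
  · exact Cardinal.add_eq_right Cardinal.aleph0_le_continuum hx

theorem natmul_cont (n : ℕ) : ((n : Cardinal.{0}) + 1) * 𝔠 = 𝔠 := by
  have h : ((n : Cardinal.{0}) + 1) = ((n + 1 : ℕ) : Cardinal) := by push_cast; ring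
  rw [h]
  apply Cardinal.mul_eq_right Cardinal.aleph0_le_continuum
  · exact (Cardinal.nat_lt_continuum _).le
  · simp

theorem natmul_le_cont (n : ℕ) {x : Cardinal.{0}} (hx : x ≤ 𝔠) :
    ((n : Cardinal.{0}) + 1) * x ≤ 𝔠 := by
  calc ((n : Cardinal.{0}) + 1) * x ≤ ((n : Cardinal.{0}) + 1) * 𝔠 := by gcongr
    _ = 𝔠 := natmul_cont n

theorem natmul_aleph (n : ℕ) : ((n : Cardinal.{0}) + 1) * ℵ₀ = ℵ₀ := by
  have h : ((n : Cardinal.{0}) + 1) = ((n + 1 : ℕ) : Cardinal) := by push_cast; ring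
  rw [h]
  exact Cardinal.nat_mul_aleph0 (by omega)

namespace Mach

variable {σ : Type} (M : Mach σ)

theorem CF_le (s : σ) (t : ℝ) : M.CF s t ≤ 𝔠 := cardF_le _ _

theorem gen_step (s : σ) (H : Submodule ℚ ℝ)
    (hH : ∀ t, 0 ≤ t → t ≤ M.tot (M.g s) → M.CF (M.g s) t ≠ 𝔠 → t ∈ H)
    (hK : M.f s ≤ M.tot (M.g s)) :
    (∀ t, 0 ≤ t → t ≤ M.tot s → M.CF s t ≠ 𝔠 → t ∈ H ⊔ ℚ ∙ (M.f s)) ∧
    (M.f s ∉ H → ∀ t, M.f s ≤ t → t ≤ M.tot (M.g s) → M.CF s t = 𝔠) := by
  constructor
  · intro t h0 h1 hne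
    rw [M.CF_step] at hne
    by_cases hle : t ≤ M.tot (M.g s)
    · apply Submodule.mem_sup_left
      apply hH t h0 hle
      intro h
      exact hne (add_cont (M.CF_le _ _) (M.CF_le _ _) (Or.inl h))
    · push Not at hle
      have h2 : t - M.f s ∈ H := by
        apply hH
        · linarith
        · rw [M.step] at h1; linarith
        · intro h
          exact hne (add_cont (M.CF_le _ _) (M.CF_le _ _) (Or.inr h))
      have h3 : t = (t - M.f s) + M.f s := by ring
      rw [h3]
      exact Submodule.add_mem_sup h2 (Submodule.mem_span_singleton_self _)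
  · intro hf t h1 h2
    by_contra hne
    rw [M.CF_step] at hne
    have hp := M.pos s
    have a1 : t ∈ H := by
      apply hH t (by linarith) h2
      intro h
      exact hne (add_cont (M.CF_le _ _) (M.CF_le _ _) (Or.inl h))
    have a2 : t - M.f s ∈ H := by
      apply hH _ (by linarith) (by linarith)
      intro h
      exact hne (add_cont (M.CF_le _ _) (M.CF_le _ _) (Or.inr h))
    apply hf
    have : M.f s = t - (t - M.f s) := by ring
    rw [this]
    exact H.sub_mem a1 a2

end Mach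

namespace Par

variable (P : Par)

/-- local pattern of bad points of the block of equal terms -/
def S (B : ℕ → Set ℝ) (k : ℕ) (s : ℝ) : Prop :=
  (s < P.a k ∧ s ∈ B (k+1)) ∨ (P.T (k+1) < s ∧ s - P.a k ∈ B (k+1))

structure Cl (B : ℕ → Set ℝ) : Prop where
  refl : ∀ k t, t ∈ B k → P.T k - t ∈ B k
  low : ∀ k t, t ∈ B k → t < P.c k →
    (t < P.b k ∧ P.S B k t) ∨ (P.T2 k - t < P.b k ∧ P.S B k (P.T2 k - t))
  mid : ∀ k t, t ∈ B k → P.c k ≤ t → P.d k ≤ t

variable {P}

theorem T_anti : Antitone P.T := antitone_nat_of_succ_le (fun i => by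
  have := P.T_half i; have := P.T_pos (i+1); linarith)

theorem v_lt_T (k : ℕ) : P.v k < P.T k := by
  have := P.z_lt_T k; have := P.v_lt_z k; have := P.z_pos k; linarith

theorem Cl.step {B : ℕ → Set ℝ} (hB : P.Cl B) {k : ℕ} {e : ℝ} (h1 : -P.v (k+1) ≤ e)
    (h2 : e < P.d k - P.v k) (h : P.v k + e ∈ B k) :
    P.T (k+1) - P.v (k+1) - P.a k < e ∧ e < P.z k - P.v k - (P.T (k+1) - P.v (k+1)) ∧
      P.v (k+1) + e ∈ B (k+1) := by
  have hc : P.v k + e < P.c k := by
    by_contra hcon
    push Not at hcon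
    have := hB.mid k _ h hcon
    linarith
  have hceq := P.c_eq k
  have hap := P.a_pos k
  rcases hB.low k _ h hc with ⟨hb, -⟩ | ⟨-, hS⟩
  · exfalso
    unfold b at hb
    have : 0 ≤ (P.m k : ℝ) * P.a k := by positivity
    linarith
  · have hs : P.T2 k - (P.v k + e) = P.T (k+1) - P.v (k+1) - e := by unfold T2; ring
    rw [hs] at hS
    rcases hS with ⟨hS1, hS2⟩ | ⟨hS1, -⟩
    · refine ⟨by linarith, by linarith, ?_⟩
      have := hB.refl _ _ hS2
      have h3 : P.T (k+1) - (P.T (k+1) - P.v (k+1) - e) = P.v (k+1) + e := by ring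
      rwa [h3] at this
    · exfalso; linarith

/-- bad points near `v k` -/
theorem Cl.near {B : ℕ → Set ℝ} (hB : P.Cl B) {k : ℕ} {e : ℝ} (h1 : -P.v (k+1) ≤ e)
    (h2 : e < P.d k - P.v k) (h : P.v k + e ∈ B k) : e = 0 := by
  have key : ∀ j, -P.v (k+j+1) ≤ e ∧ e < P.d (k+j) - P.v (k+j) ∧ P.v (k+j) + e ∈ B (k+j) := by
    intro j
    induction j with
    | zero => exact ⟨h1, h2, h⟩
    | succ j ih =>
      obtain ⟨a1, a2, a3⟩ := ih
      obtain ⟨b1, b2, b3⟩ := hB.step a1 a2 a3
      have c1 := P.alpha_win (k+j)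
      have c2 := P.gamma_win (k+j)
      refine ⟨?_, ?_, b3⟩
      · show -P.v (k + j + 2) ≤ e
        linarith
      · show e < P.d (k+j+1) - P.v (k+j+1)
        unfold d
        show e < P.z (k+j+1) - P.z (k+j+2) + P.ξ (k+j+1) - P.v (k+j+1)
        linarith
  by_contra hne
  obtain ⟨j, hj⟩ := P.exists_T_lt (abs_pos.2 hne) k
  obtain ⟨a1, a2, -⟩ := key j
  have hv : P.v (k+j+1) < P.T (k+j) := lt_of_lt_of_le (v_lt_T _) (T_anti (Nat.le_succ _))
  have hd := P.d_lt_z' (k+j)
  have hz := P.z_lt_T (k+j)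
  have hzp := P.z_pos (k+j)
  have hvp := P.v_pos (k+j)
  have : |e| < P.T (k+j) := by
    rw [abs_lt]; constructor <;> linarith
  linarith

theorem Cl.max {B : ℕ → Set ℝ} (hB : P.Cl B) {k : ℕ} {t : ℝ} (h : t ∈ B k) (hc : t < P.c k) :
    t ≤ P.v k := by
  by_contra hcon
  push Not at hcon
  have hcd := P.c_lt_d' k
  have hvp := P.v_pos (k+1)
  have := hB.near (k := k) (e := t - P.v k) (by linarith) (by linarith)
    (by rwa [show P.v k + (t - P.v k) = t by ring])
  linarith

theorem T_half_lt_a (k : ℕ) : P.T (k+1) / 2 < P.a k := by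
  have := P.alpha_pos k; have := P.z_lt_T (k+1); have := P.v_lt_z (k+1); linarith

/-- explicit special values -/
def Spec (P : Par) (k : ℕ) (s : ℝ) : Prop :=
  s = P.T (k+1) - P.v (k+1) ∨ s = P.T (k+1) - P.z (k+1) ∨ s = P.a k + P.v (k+1) ∨
    s = P.a k + P.z (k+1)

theorem Cl.classify {B : ℕ → Set ℝ} (hB : P.Cl B)
    (hTop : ∀ k t, t ∈ B k → t ≤ P.T k / 2 → t < P.c k ∨ t = P.z k)
    {k : ℕ} {s : ℝ} (hsb : s < P.b k) (hS : P.S B k s) :
    (s ∈ B (k+1) ∧ s ≤ P.T (k+1) / 2) ∨ P.Spec k s := by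
  have hw := P.alpha_win k
  have hcd := P.c_lt_d' (k+1)
  have hvc := P.v_lt_c (k+1)
  -- general fact: a bad point of level k+1 in (v - alpha, T/2] is v or z
  have fact : ∀ r, r ∈ B (k+1) → r ≤ P.T (k+1) / 2 → P.T (k+1) - P.a k < r →
      r = P.v (k+1) ∨ r = P.z (k+1) := by
    intro r hr hr2 hr3
    rcases hTop _ _ hr hr2 with h | h
    · left
      have hmax := hB.max hr h
      have := hB.near (k := k+1) (e := r - P.v (k+1)) (by
        show -P.v (k+2) ≤ _
        linarith) (by linarith)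
        (by rwa [show P.v (k+1) + (r - P.v (k+1)) = r by ring])
      linarith
    · right; exact h
  rcases hS with ⟨h1, h2⟩ | ⟨h1, h2⟩
  · by_cases hs : s ≤ P.T (k+1) / 2
    · left; exact ⟨h2, hs⟩
    · right
      push Not at hs
      rcases fact (P.T (k+1) - s) (hB.refl _ _ h2) (by linarith) (by linarith) with h | h
      · left; linarith
      · right; left; linarith
  · right
    have hbh := P.b_half k
    have hb' : s - P.a k ≤ P.T (k+1) / 2 := by
      unfold b at hsb; linarith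
    rcases fact (s - P.a k) h2 hb' (by linarith) with h | h
    · right; right; left; linarith
    · right; right; right; linarith

theorem Cl.descend {B : ℕ → Set ℝ} (hB : P.Cl B) (hpos : ∀ k t, t ∈ B k → 0 ≤ t)
    (hTop : ∀ k t, t ∈ B k → t ≤ P.T k / 2 → t < P.c k ∨ t = P.z k)
    (Q : ℕ → ℝ → Prop) (h0 : ∀ k, Q k 0) (hz : ∀ k, P.z k ∈ B k → Q k (P.z k))
    (hexp1 : ∀ k t, t < P.b k → P.Spec k t → Q k t)
    (hexp2 : ∀ k t, t < P.c k → P.T2 k - t < P.b k → P.Spec k (P.T2 k - t) → Q k t)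
    (hrec : ∀ k t, 0 < t → t ≤ P.T (k+1) / 2 → Q (k+1) t → Q k t) :
    ∀ k t, t ∈ B k → t ≤ P.T k / 2 → Q k t := by
  have key : ∀ j k t, t ∈ B k → 0 < t → t ≤ P.T k / 2 → P.T (k+j) < t → Q k t := by
    intro j
    induction j with
    | zero =>
      intro k t _ _ h1 h2
      exfalso
      have := P.T_pos k
      simp at h2
      linarith
    | succ j ih =>
      intro k t htB ht0 ht1 ht2
      rcases hTop _ _ htB ht1 with hc | hz'
      · rcases hB.low _ _ htB hc with ⟨hb, hS⟩ | ⟨hb, hS⟩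
        · rcases hB.classify hTop hb hS with ⟨h1, h2⟩ | h
          · apply hrec k t ht0 h2
            apply ih (k+1) t h1 ht0 h2
            rw [show k + 1 + j = k + (j+1) by ring]; exact ht2
          · exact hexp1 k t hb h
        · rcases hB.classify hTop hb hS with ⟨h1, h2⟩ | h
          · exfalso
            have h3 := P.c_half k
            have h4 : P.T2 k - P.c k < P.T2 k - t := by linarith
            unfold T2 c at *
            linarith
          · exact hexp2 k t hc hb h
      · subst hz'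
        exact hz k htB
  intro k t htB ht1
  rcases (hpos k t htB).eq_or_lt with h | h
  · rw [← h]; exact h0 k
  · obtain ⟨j, hj⟩ := P.exists_T_lt h k
    exact key j k t htB h ht1 hj

/-! ### first pass: unique points -/

theorem F_ne_zero_nonneg {k : ℕ} {t : ℝ} (h : P.F k t ≠ 0) : 0 ≤ t := by
  by_contra hc
  exact h (P.F_zero_of_neg k (not_le.1 hc))

theorem c_lt_T2 (k : ℕ) : P.c k < P.T2 k := by
  have h1 := P.c_half k
  have h2 := P.T_pos (k+1)
  unfold c T2; linarith

theorem d_le_T2 (k : ℕ) : P.d k ≤ P.T2 k := by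
  have h1 := P.d_le k
  unfold d T2; linarith

theorem T2_eq (k : ℕ) : P.T2 k = (P.m k + 1) * P.a k + P.T (k+1) + P.b k := by
  unfold T2 b; ring

theorem e_le_T4 (k : ℕ) : P.e k ≤ P.v k + P.z k + P.d k := by
  have h1 := P.e_high k
  have h2 := P.z_pos (k+1)
  have h3 := P.d_pos k
  unfold e; linarith

theorem e_lt_T3 (k : ℕ) : P.e k < P.v k + P.z k := by
  have h1 := P.e_high k
  have h2 := P.z_pos (k+1)
  unfold e; linarith

theorem T_eq (k : ℕ) : P.T k = P.v k + P.z k + P.d k + P.e k := by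
  unfold d e; ring

theorem T_half_le (k : ℕ) : P.T k / 2 ≤ P.v k + P.z k + P.d k := by
  have h1 := P.e_le_T4 (k := k)
  have h2 := P.T_eq (k := k)
  linarith

theorem F1_one {k : ℕ} {s : ℝ} (h : P.F1 k s = 1) (hs0 : 0 ≤ s) (hsb : s < P.b k) :
    P.S (fun k => {t | P.F k t = 1}) k s := by
  have hb := P.b_high k
  have hs2 : s < 2 * P.a k := by unfold b at hsb; linarith
  by_cases hsa : s < P.a k
  · left
    refine ⟨hsa, ?_⟩
    rw [P.F1_eq_F k hsa] at h
    exact h
  · push Not at hsa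
    have ha := P.a_le k
    rw [P.F1_eq k hs2] at h
    by_cases hsT : s ≤ P.T (k+1)
    · exfalso
      refine add_ne_one (P.F_ne (k+1) hs0 hsT) ?_ h
      apply mul_ne_zero
      · have : (0 : Cardinal.{0}) < (P.m k : Cardinal.{0}) + 1 :=
          lt_of_lt_of_le zero_lt_one le_add_self
        exact this.ne'
      · exact P.F_ne (k+1) (by linarith) (by have := P.a_pos k; linarith)
    · push Not at hsT
      right
      refine ⟨hsT, ?_⟩
      rw [P.F_zero_of_gt (k+1) hsT, zero_add] at h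
      show P.F (k+1) (s - P.a k) = 1
      set x := P.F (k+1) (s - P.a k) with hx
      have hx0 : x ≠ 0 := by
        intro h'
        rw [h', mul_zero] at h
        exact zero_ne_one h
      apply le_antisymm _ (Cardinal.one_le_iff_ne_zero.2 hx0)
      calc x = 1 * x := (one_mul x).symm
        _ ≤ ((P.m k : Cardinal) + 1) * x := by
            gcongr
            exact le_add_self
        _ = 1 := h

theorem cl_one : P.Cl (fun k => {t | P.F k t = 1}) where
  refl := by
    intro k t h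
    show P.F k (P.T k - t) = 1
    rw [P.F_reflect]; exact h
  low := by
    intro k t h hc
    have h' : P.F k t = 1 := h
    have ht0 : 0 ≤ t := F_ne_zero_nonneg (P := P) (k := k) (by rw [h']; exact one_ne_zero)
    rw [P.F_eq_F2 k hc] at h'
    by_cases hb : t < P.b k
    · left
      refine ⟨hb, F1_one ?_ ht0 hb⟩
      rw [← P.F2_eq_F1 k hb]; exact h'
    · push Not at hb
      right
      have h1 : (P.m k + 1) * P.a k + P.T (k+1) < t := by
        by_contra hcon
        push Not at hcon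
        rw [P.F2_step] at h'
        have hbp := P.b_pos k
        exact add_ne_one (P.F1_ne k ht0 hcon) (P.F1_ne k (by linarith) (by linarith)) h'
      have hT2 := P.T2_eq (k := k)
      have hlt : P.T2 k - t < P.b k := by linarith
      have hcT := P.c_lt_T2 (k := k)
      refine ⟨hlt, F1_one ?_ (by linarith) hlt⟩
      rw [← P.F2_eq_F1 k hlt, P.F2_reflect]; exact h'
  mid := by
    intro k t h hc
    have h' : P.F k t = 1 := h
    by_contra hd
    push Not at hd
    have hdz := P.d_lt_z' k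
    have hze := P.z_lt_e k
    have hcp := P.c_pos k
    rw [P.F_eq_F4 k (by linarith), P.F4_eq_F3 k hd, P.F3_step] at h'
    have := P.d_le_T2 (k := k)
    exact add_ne_one (P.F2_ne k (by linarith) (by linarith))
      (P.F2_ne k (by linarith) (by linarith)) h'

theorem top_one : ∀ k t, t ∈ (fun k => {t | P.F k t = 1}) k → t ≤ P.T k / 2 →
    t < P.c k ∨ t = P.z k := by
  intro k t h ht
  have h' : P.F k t = 1 := h
  left
  by_contra hc
  push Not at hc
  have hd := (cl_one (P := P)).mid k t h hc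
  have ht0 : 0 ≤ t := by have := P.c_pos k; linarith
  have hT := P.T_half_le (k := k)
  have hdp := P.d_pos k
  have hep := P.e_pos k
  by_cases he : t < P.e k
  · rw [P.F_eq_F4 k he, P.F4_step] at h'
    have h3 := P.e_lt_T3 (k := k)
    exact add_ne_one (P.F3_ne k ht0 (by linarith)) (P.F3_ne k (by linarith) (by linarith)) h'
  · push Not at he
    rw [P.F_step] at h'
    exact add_ne_one (P.F4_ne k ht0 (by linarith)) (P.F4_ne k (by linarith) (by linarith)) h'

theorem spec_mem {k : ℕ} {s : ℝ} (h : P.Spec k s) : s ∈ P.G k := by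
  have hv := P.G_anti k (P.v_mem (k+1))
  have hz := P.G_anti k (P.z_mem (k+1))
  have hT := P.G_anti k (P.T_mem (k+1))
  have ha := P.a_mem k
  rcases h with rfl | rfl | rfl | rfl
  · exact (P.G k).sub_mem hT hv
  · exact (P.G k).sub_mem hT hz
  · exact (P.G k).add_mem ha hv
  · exact (P.G k).add_mem ha hz

theorem T2_mem (k : ℕ) : P.T2 k ∈ P.G k := by
  unfold T2
  exact (P.G k).add_mem ((P.G k).sub_mem (P.G_anti k (P.T_mem (k+1)))
    (P.G_anti k (P.v_mem (k+1)))) (P.v_mem k)

theorem unique_mem : ∀ k t, P.F k t = 1 → t ∈ P.G k := by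
  have key := (cl_one (P := P)).descend
    (fun k t h => F_ne_zero_nonneg (P := P) (k := k) (by
      have h' : P.F k t = 1 := h
      rw [h']; exact one_ne_zero))
    top_one (fun k t => t ∈ P.G k) (fun k => (P.G k).zero_mem) (fun k _ => P.z_mem k)
    (fun k t _ h => spec_mem h)
    (fun k t _ _ h => by
      have := spec_mem h
      have h2 : t = P.T2 k - (P.T2 k - t) := by ring
      rw [h2]
      exact (P.G k).sub_mem (T2_mem k) this)
    (fun k t _ _ h => P.G_anti k h)
  intro k t h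
  by_cases ht : t ≤ P.T k / 2
  · exact key k t h ht
  · push Not at ht
    have h2 : P.T k - t ∈ P.G k := by
      apply key k _ _ (by linarith)
      show P.F k (P.T k - t) = 1
      rw [P.F_reflect]; exact h
    have h3 : t = P.T k - (P.T k - t) := by ring
    rw [h3]
    exact (P.G k).sub_mem (P.T_mem k) h2

end Par

end Pool.Agent.Lib.P92898d
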