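import Pool.Agent.Lib.P92898d.Pass

open Cardinal Set Filter Topology

namespace Pool.Agent.Lib.P92898d

namespace Par

variable {P : Par}

theorem G_anti' {k l : ℕ} (h : k ≤ l) : P.G l ≤ P.G k :=
  (antitone_nat_of_succ_le P.G_anti) h

theorem b_mem (k : ℕ) : P.b k ∈ P.G k := by
  unfold b
  have hv := P.G_anti k (P.v_mem (k+1))
  have ha := P.a_mem k
  have h1 : ((P.m k : ℝ) + 1) * P.a k = ((P.m k : ℚ) + 1) • P.a k := by
    rw [Algebra.smul_def]; simp
  rw [h1]
  exact (P.G k).sub_mem ((P.G k).sub_mem (P.v_mem k) hv) ((P.G k).smul_mem _ ha)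

theorem c_mem (k : ℕ) : P.c k ∈ P.G k := by
  unfold c
  exact (P.G k).sub_mem (P.z_mem k) ((P.G k).sub_mem (P.G_anti k (P.T_mem (k+1)))
    (P.G_anti k (P.v_mem (k+1))))

theorem d_mem (k : ℕ) : P.d k ∈ P.G k := by
  unfold d
  exact (P.G k).add_mem ((P.G k).sub_mem (P.z_mem k) (P.G_anti k (P.z_mem (k+1)))) (P.ξ_mem k)

theorem e_mem (k : ℕ) : P.e k ∈ P.G k := by
  have h := P.T_eq (k := k)
  have h2 : P.e k = P.T k - P.v k - P.z k - P.d k := by linarith
  rw [h2]
  exact (P.G k).sub_mem ((P.G k).sub_mem ((P.G k).sub_mem (P.T_mem k) (P.v_mem k)) (P.z_mem k))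
    (d_mem k)

theorem out_mem (s : ℕ × ℕ) : P.out s ∈ P.G s.1 := by
  unfold out
  split_ifs
  · exact P.a_mem _
  · exact b_mem _
  · exact c_mem _
  · exact d_mem _
  · exact e_mem _

theorem level_iter (s : ℕ × ℕ) (n : ℕ) : s.1 ≤ (P.nxt^[n] s).1 := by
  induction n with
  | zero => exact le_rfl
  | succ n ih =>
    rw [Function.iterate_succ_apply']
    refine ih.trans ?_
    generalize P.nxt^[n] s = q
    obtain ⟨k, j⟩ := q
    cases j with
    | zero => exact Nat.le_succ k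
    | succ j => exact le_rfl

theorem F_le (k : ℕ) (t : ℝ) : P.F k t ≤ 𝔠 := cardF_le _ _

/-- points with fewer than continuum many representations lie in `G k` -/
theorem bad_mem {k : ℕ} {t : ℝ} (h0 : 0 ≤ t) (h1 : t ≤ P.T k) (h : P.F k t ≠ 𝔠) : t ∈ P.G k := by
  by_contra hcon
  apply h
  unfold F
  apply P.mach.CF_continuum P.kakeya _ (P.G k).toAddSubgroup
  · intro n
    show P.out (P.nxt^[n] (k, P.m k + 4)) ∈ P.G k
    exact G_anti' (level_iter (P := P) (k, P.m k + 4) n) (out_mem _)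
  · intro N
    obtain ⟨n, k', hn, hk', hs⟩ := P.nxt_iter_level (k, P.m k + 4) N
    refine ⟨n, hn, ?_⟩
    intro r hr
    have hr' : P.F k' r = 1 := by
      unfold F
      rw [← hs]; exact hr
    have : r ∈ P.G k' := unique_mem k' r hr'
    have hk : k ≤ k' := by
      have : (k, P.m k + 4).1 = k := rfl
      omega
    exact G_anti' hk this
  · exact h0
  · rw [show P.mach.tot (k, P.m k + 4) = P.T k from P.total_e k]; exact h1
  · exact hcon

/-- the bad points -/
def N (P : Par) (k : ℕ) : Set ℝ := {t | 0 ≤ t ∧ t ≤ P.T k ∧ P.F k t ≠ 𝔠}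

theorem block_gen (k : ℕ) : ∀ j, j ≤ P.m k → ∀ t, 0 ≤ t → t ≤ P.total (k, j) →
    P.mach.CF (k, j) t ≠ 𝔠 → t ∈ P.G (k+1) ⊔ ℚ ∙ (P.a k) := by
  intro j
  induction j with
  | zero =>
    intro hj t h0 h1 hne
    have := (P.mach.gen_step (k, 0) (P.G (k+1)) (by
      intro t ht0 ht1 htne
      have ht1' : t ≤ P.T (k+1) := by
        have : P.mach.tot (P.mach.g (k, 0)) = P.T (k+1) := P.total_e (k+1)
        rw [← this]; exact ht1
      exact bad_mem ht0 ht1' htne) (P.kakeya (k, 0))).1 t h0 h1 hne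
    rw [show P.mach.f (k, 0) = P.a k from P.out_a hj] at this
    exact this
  | succ j ih =>
    intro hj t h0 h1 hne
    have := (P.mach.gen_step (k, j+1) (P.G (k+1) ⊔ ℚ ∙ (P.a k))
      (fun t ht0 ht1 htne => ih (by omega) t ht0 ht1 htne) (P.kakeya (k, j+1))).1 t h0 h1 hne
    rw [show P.mach.f (k, j+1) = P.a k from P.out_a hj, sup_assoc, sup_idem] at this
    exact this

theorem gen1 {k : ℕ} {t : ℝ} (h0 : 0 ≤ t) (h1 : t ≤ (P.m k + 1) * P.a k + P.T (k+1))
    (h : P.F1 k t ≠ 𝔠) : t ∈ P.G (k+1) ⊔ ℚ ∙ (P.a k) :=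
  block_gen k _ le_rfl t h0 (by rw [P.total_a le_rfl]; exact h1) h

theorem gen2 (k : ℕ) :
    (∀ t, 0 ≤ t → t ≤ P.T2 k → P.F2 k t ≠ 𝔠 → t ∈ P.G (k+1) ⊔ ℚ ∙ (P.a k) ⊔ ℚ ∙ (P.b k)) ∧
    (∀ t, P.b k ≤ t → t ≤ (P.m k + 1) * P.a k + P.T (k+1) → P.F2 k t = 𝔠) := by
  have h := P.mach.gen_step (k, P.m k + 1) (P.G (k+1) ⊔ ℚ ∙ (P.a k))
    (fun t ht0 ht1 htne => block_gen k _ le_rfl t ht0 ht1 htne) (P.kakeya (k, P.m k + 1))
  rw [show P.mach.f (k, P.m k + 1) = P.b k from P.out_b k] at h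
  refine ⟨fun t h0 h1 hne => h.1 t h0 ?_ hne, fun t h0 h1 => h.2 (P.b_gen k) t h0 ?_⟩
  · rw [show P.mach.tot (k, P.m k + 1) = _ from P.total_b k]; exact h1
  · rw [show P.mach.tot (P.mach.g (k, P.m k + 1)) = _ from P.total_a le_rfl]; exact h1

theorem gen3 (k : ℕ) :
    (∀ t, 0 ≤ t → t ≤ P.v k + P.z k → P.F3 k t ≠ 𝔠 →
      t ∈ P.G (k+1) ⊔ ℚ ∙ (P.a k) ⊔ ℚ ∙ (P.b k) ⊔ ℚ ∙ (P.c k)) ∧
    (∀ t, P.c k ≤ t → t ≤ P.T2 k → P.F3 k t = 𝔠) := by
  have h := P.mach.gen_step (k, P.m k + 2) (P.G (k+1) ⊔ ℚ ∙ (P.a k) ⊔ ℚ ∙ (P.b k))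
    (fun t ht0 ht1 htne => (gen2 k).1 t ht0 (by
      rw [← show P.mach.tot (P.mach.g (k, P.m k + 2)) = _ from P.total_b k]; exact ht1) htne)
    (P.kakeya (k, P.m k + 2))
  rw [show P.mach.f (k, P.m k + 2) = P.c k from P.out_c k] at h
  refine ⟨fun t h0 h1 hne => h.1 t h0 ?_ hne, fun t h0 h1 => h.2 (P.c_gen k) t h0 ?_⟩
  · rw [show P.mach.tot (k, P.m k + 2) = _ from P.total_c k]; exact h1
  · rw [show P.mach.tot (P.mach.g (k, P.m k + 2)) = _ from P.total_b k]; exact h1

theorem gen4 (k : ℕ) :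
    (∀ t, 0 ≤ t → t ≤ P.v k + P.z k + P.d k → P.F4 k t ≠ 𝔠 →
      t ∈ P.G (k+1) ⊔ ℚ ∙ (P.a k) ⊔ ℚ ∙ (P.b k) ⊔ ℚ ∙ (P.c k) ⊔ ℚ ∙ (P.d k)) ∧
    (P.flag = false → ∀ t, P.d k ≤ t → t ≤ P.v k + P.z k → P.F4 k t = 𝔠) := by
  have h := P.mach.gen_step (k, P.m k + 3)
    (P.G (k+1) ⊔ ℚ ∙ (P.a k) ⊔ ℚ ∙ (P.b k) ⊔ ℚ ∙ (P.c k))
    (fun t ht0 ht1 htne => (gen3 k).1 t ht0 (by
      rw [← show P.mach.tot (P.mach.g (k, P.m k + 3)) = _ from P.total_c k]; exact ht1) htne)
    (P.kakeya (k, P.m k + 3))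
  rw [show P.mach.f (k, P.m k + 3) = P.d k from P.out_d k] at h
  refine ⟨fun t h0 h1 hne => h.1 t h0 ?_ hne, fun hf t h0 h1 => h.2 (P.d_gen hf k) t h0 ?_⟩
  · rw [show P.mach.tot (k, P.m k + 3) = _ from P.total_d k]; exact h1
  · rw [show P.mach.tot (P.mach.g (k, P.m k + 3)) = _ from P.total_c k]; exact h1

theorem gen5 (k : ℕ) : ∀ t, P.e k ≤ t → t ≤ P.v k + P.z k + P.d k → P.F k t = 𝔠 := by
  have h := P.mach.gen_step (k, P.m k + 4)
    (P.G (k+1) ⊔ ℚ ∙ (P.a k) ⊔ ℚ ∙ (P.b k) ⊔ ℚ ∙ (P.c k) ⊔ ℚ ∙ (P.d k))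
    (fun t ht0 ht1 htne => (gen4 k).1 t ht0 (by
      rw [← show P.mach.tot (P.mach.g (k, P.m k + 4)) = _ from P.total_d k]; exact ht1) htne)
    (P.kakeya (k, P.m k + 4))
  rw [show P.mach.f (k, P.m k + 4) = P.e k from P.out_e le_rfl] at h
  intro t h0 h1
  refine h.2 (P.e_gen k) t h0 ?_
  rw [show P.mach.tot (P.mach.g (k, P.m k + 4)) = _ from P.total_d k]; exact h1

theorem F1_bad {k : ℕ} {s : ℝ} (h : P.F1 k s ≠ 𝔠) (hs0 : 0 ≤ s) (hsb : s < P.b k) :
    P.S P.N k s := by
  have hb := P.b_high k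
  have hs2 : s < 2 * P.a k := by unfold b at hsb; linarith
  have ha := P.a_le k
  have hap := P.a_pos k
  by_cases hsa : s < P.a k
  · left
    refine ⟨hsa, hs0, by linarith, ?_⟩
    rw [P.F1_eq_F k hsa] at h
    exact h
  · push Not at hsa
    rw [P.F1_eq k hs2] at h
    have hle := F_le (P := P) (k+1)
    by_cases hsT : s ≤ P.T (k+1)
    · exfalso
      have a1 : s ∈ P.G (k+1) := by
        apply bad_mem hs0 hsT
        intro h'
        exact h (add_cont (hle _) (natmul_le_cont _ (hle _)) (Or.inl h'))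
      have a2 : s - P.a k ∈ P.G (k+1) := by
        apply bad_mem (by linarith) (by linarith)
        intro h'
        apply h (add_cont (hle _) (natmul_le_cont _ (hle _)) (Or.inr _))
        rw [h']; exact natmul_cont _
      apply P.a_gen k
      have : P.a k = s - (s - P.a k) := by ring
      rw [this]
      exact (P.G (k+1)).sub_mem a1 a2
    · push Not at hsT
      right
      refine ⟨hsT, by linarith, ?_, ?_⟩
      · linarith
      · intro h'
        apply h (add_cont (hle _) (natmul_le_cont _ (hle _)) (Or.inr _))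
        rw [h']; exact natmul_cont _

theorem cl_N : P.Cl P.N where
  refl := by
    rintro k t ⟨h0, h1, h2⟩
    refine ⟨by linarith, by linarith, ?_⟩
    rw [P.F_reflect]; exact h2
  low := by
    rintro k t ⟨ht0, h1, h'⟩ hc
    rw [P.F_eq_F2 k hc] at h'
    by_cases hb : t < P.b k
    · left
      refine ⟨hb, F1_bad ?_ ht0 hb⟩
      rw [← P.F2_eq_F1 k hb]; exact h'
    · push Not at hb
      right
      have h1 : (P.m k + 1) * P.a k + P.T (k+1) < t := by
        by_contra hcon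
        push Not at hcon
        exact h' ((gen2 k).2 t hb hcon)
      have hT2 := P.T2_eq (k := k)
      have hlt : P.T2 k - t < P.b k := by linarith
      have hcT := P.c_lt_T2 (k := k)
      refine ⟨hlt, F1_bad ?_ (by linarith) hlt⟩
      rw [← P.F2_eq_F1 k hlt, P.F2_reflect]; exact h'
  mid := by
    rintro k t ⟨ht0, h1, h'⟩ hc
    by_contra hd
    push Not at hd
    have hdz := P.d_lt_z' k
    have hze := P.z_lt_e k
    rw [P.F_eq_F4 k (by linarith), P.F4_eq_F3 k hd] at h'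
    have := P.d_le_T2 (k := k)
    exact h' ((gen3 k).2 t hc (by linarith))

/-- the pair analysis behind the special point `z k` -/
theorem pair_aux {k : ℕ} {x y : ℝ} (_hx : x ∈ P.N k) (hy : y ∈ P.N k)
    (hxv : x ≤ P.v k) (hyc : y < P.c k) (hxy : x + y = P.v k + P.z (k+1))
    (h1 : P.T2 k - x < P.b k) (h2 : P.S P.N k (P.T2 k - x)) : x = P.v k := by
  set s := P.T2 k - x with hs
  have hsA : P.T (k+1) - P.v (k+1) ≤ s := by rw [hs]; unfold T2; linarith
  have hyv : y = P.z (k+1) + s - (P.T (k+1) - P.v (k+1)) := by rw [hs]; unfold T2; linarith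
  rcases h2 with ⟨h3, h4⟩ | ⟨h3, h4⟩
  · have hr := (cl_N (P := P)).refl _ _ h4
    have hw := P.alpha_win k
    have hcd := P.c_lt_d' (k+1)
    have hvc := P.v_lt_c (k+1)
    have := (cl_N (P := P)).near (k := k+1) (e := P.T (k+1) - s - P.v (k+1)) (by
        show -P.v (k+2) ≤ _
        linarith) (by linarith)
        (by rwa [show P.v (k+1) + (P.T (k+1) - s - P.v (k+1)) = P.T (k+1) - s by ring])
    have h5 : s = P.T (k+1) - P.v (k+1) := by linarith
    rw [hs] at h5
    unfold T2 at h5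
    linarith
  · exfalso
    have hbz := P.b_z k
    have hbl := P.b_low k
    have hvp := P.v_pos (k+1)
    have hap := P.a_pos k
    have hya : y < P.a k := by
      unfold b at h1
      linarith
    have hyb : y < P.b k := by unfold b; linarith
    have hyG : y ∈ P.G (k+1) := by
      rcases (cl_N (P := P)).low k y hy hyc with ⟨_, h⟩ | ⟨h, _⟩
      · rcases h with ⟨_, h⟩ | ⟨h, _⟩
        · exact bad_mem h.1 h.2.1 h.2.2
        · have := P.a_le k; linarith
      · exfalso
        have hT2 := P.T2_eq (k := k)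
        have : 0 ≤ (P.m k : ℝ) * P.a k := by positivity
        have hTp := P.T_pos (k+1)
        linarith
    have hsG : s - P.a k ∈ P.G (k+1) := bad_mem h4.1 h4.2.1 h4.2.2
    apply P.a_gen k
    have h5 : P.a k = y - (s - P.a k) - P.z (k+1) + (P.T (k+1) - P.v (k+1)) := by
      rw [hyv]; ring
    rw [h5]
    exact (P.G (k+1)).add_mem ((P.G (k+1)).sub_mem ((P.G (k+1)).sub_mem hyG hsG)
      (P.z_mem (k+1))) ((P.G (k+1)).sub_mem (P.T_mem (k+1)) (P.v_mem (k+1)))

theorem top_N' {k : ℕ} {t : ℝ} (h : t ∈ P.N k) (ht : t ≤ P.T k / 2) (hc : P.c k ≤ t) :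
    P.flag = true ∧ t = P.z k := by
  have hd := (cl_N (P := P)).mid k t h hc
  obtain ⟨h0, h1, hne⟩ := h
  have hT := P.T_half_le (k := k)
  have hte : t < P.e k := by
    by_contra hcon
    push Not at hcon
    exact hne (gen5 k t hcon (by linarith))
  have h3 := P.e_lt_T3 (k := k)
  have hflag : P.flag = true := by
    by_contra hf
    have hf' : P.flag = false := by simpa using hf
    apply hne
    rw [P.F_eq_F4 k hte]
    exact (gen4 k).2 hf' t hd (by linarith)
  refine ⟨hflag, ?_⟩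
  have hξ := P.ξ_zero hflag k
  have hdp := P.d_pos k
  have hdz := P.d_lt_z' k
  have hze := P.z_lt_e k
  have hcd := P.c_lt_d' k
  rw [P.F_eq_F4 k hte, P.F4_step] at hne
  have hcfle : ∀ t, P.F3 k t ≤ 𝔠 := fun t => cardF_le _ _
  have n1 : P.F3 k t ≠ 𝔠 := fun h' => hne (add_cont (hcfle _) (hcfle _) (Or.inl h'))
  have n2 : P.F3 k (t - P.d k) ≠ 𝔠 := fun h' => hne (add_cont (hcfle _) (hcfle _) (Or.inr h'))
  rw [← P.F3_reflect] at n1
  set p := P.v k + P.z k - t with hp
  set q := t - P.d k with hq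
  have hdval : P.d k = P.z k - P.z (k+1) := by unfold d; rw [hξ]; ring
  have hpq : p + q = P.v k + P.z (k+1) := by rw [hp, hq, hdval]; ring
  have heh := P.e_high k
  have hzp := P.z_pos (k+1)
  have heval : P.e k = P.T k - P.v k - 2 * P.z k + P.z (k+1) - P.ξ k := rfl
  have hp0 : 0 ≤ p := by rw [hp]; linarith
  have hq0 : 0 ≤ q := by rw [hq]; linarith
  have hed := P.e_d k
  have hqc : q < P.c k := by
    have : P.e k - P.d k < P.c k := hed
    rw [hq]; linarith
  have hcd2 := P.c_lt_d k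
  have hpc : p < P.c k := by
    by_contra hcon
    push Not at hcon
    apply n1
    apply (gen3 k).2 p hcon
    unfold T2
    linarith
  have hvc := P.v_lt_c k
  have hcT : P.c k ≤ P.T k := by
    have := P.T_eq (k := k)
    have := P.v_pos k
    have := P.z_pos k
    have := P.e_pos k
    linarith
  have pN : p ∈ P.N k := ⟨hp0, by linarith, by
    rw [P.F_eq_F4 k (by linarith), P.F4_eq_F3 k (by linarith)]; exact n1⟩
  have qN : q ∈ P.N k := ⟨hq0, by linarith, by
    rw [P.F_eq_F4 k (by linarith), P.F4_eq_F3 k (by linarith)]; exact n2⟩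
  have hpv := (cl_N (P := P)).max pN hpc
  have hqv := (cl_N (P := P)).max qN hqc
  have h2b := P.two_b k
  rcases (cl_N (P := P)).low k p pN hpc with ⟨hpb, -⟩ | ⟨hp1, hp2⟩
  · rcases (cl_N (P := P)).low k q qN hqc with ⟨hqb, -⟩ | ⟨hq1, hq2⟩
    · exfalso
      unfold b at hpb hqb
      linarith
    · have hqv' := pair_aux qN pN hqv hpc (by linarith) hq1 hq2
      exfalso
      -- then p = z (k+1), t = T3 - z(k+1) > e
      linarith
  · have hpv' := pair_aux pN qN hpv hqc hpq hp1 hp2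
    linarith

theorem top_N : ∀ k t, t ∈ P.N k → t ≤ P.T k / 2 → t < P.c k ∨ t = P.z k := by
  intro k t h ht
  by_cases hc : t < P.c k
  · left; exact hc
  · right; exact (top_N' h ht (not_lt.1 hc)).2

/-! ### values at the special points -/

/-- the forced path of `v` -/
def PV (P : Par) (s : ℕ × ℕ) (r : ℝ) : Prop :=
  (s.2 ≤ P.m s.1 ∧ r = (s.2 + 1) * P.a s.1 + P.v (s.1 + 1)) ∨
    (P.m s.1 + 1 ≤ s.2 ∧ s.2 ≤ P.m s.1 + 4 ∧ r = P.v s.1)

theorem b_lt_v (k : ℕ) : P.b k < P.v k := by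
  have h1 := P.v_pos (k+1)
  have h2 := P.a_pos k
  have : 0 ≤ (P.m k : ℝ) * P.a k := by positivity
  unfold b; linarith

theorem PV_step : ∀ s r, P.PV s r → (P.mach.CF (P.mach.g s) r = 0 ∧
    P.PV (P.mach.g s) (r - P.mach.f s)) ∨
      (P.mach.CF (P.mach.g s) (r - P.mach.f s) = 0 ∧ P.PV (P.mach.g s) r) := by
  rintro ⟨k, j⟩ r h
  have hvc := P.v_lt_c k
  have hcd := P.c_lt_d' k
  have hdz := P.d_lt_z' k
  have hze := P.z_lt_e k
  have hal := P.alpha_pos k
  have hbl := P.b_low k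
  have hvp := P.v_pos (k+1)
  have hap := P.a_pos k
  rcases h with ⟨h1, h2⟩ | ⟨h1, h2, h3⟩
  · simp only at h1 h2
    left
    cases j with
    | zero =>
      constructor
      · show P.mach.CF (k+1, P.m (k+1) + 4) r = 0
        apply P.F_zero_of_gt (k+1)
        rw [h2]; push_cast; linarith
      · show P.PV (k+1, P.m (k+1) + 4) (r - P.out (k, 0))
        rw [P.out_a h1]
        right
        refine ⟨by simp, by simp, ?_⟩
        rw [h2]; push_cast; ring
    | succ j =>
      constructor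
      · show P.mach.CF (k, j) r = 0
        apply P.mach.CF_gt
        rw [show P.mach.tot (k, j) = _ from P.total_a (by omega), h2]
        push_cast
        linarith
      · show P.PV (k, j) (r - P.out (k, j+1))
        rw [P.out_a h1]
        left
        refine ⟨by show j ≤ P.m k; omega, ?_⟩
        show r - P.a k = (j+1) * P.a k + P.v (k+1)
        rw [h2]; push_cast; ring
  · simp only at h1 h2 h3
    have hcases : j = P.m k + 1 ∨ j = P.m k + 2 ∨ j = P.m k + 3 ∨ j = P.m k + 4 := by omega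
    rcases hcases with rfl | rfl | rfl | rfl
    · left
      constructor
      · show P.mach.CF (k, P.m k) r = 0
        apply P.mach.CF_gt
        rw [show P.mach.tot (k, P.m k) = _ from P.total_a le_rfl, h3]
        linarith
      · show P.PV (k, P.m k) (r - P.out (k, P.m k + 1))
        rw [P.out_b, h3]
        left
        refine ⟨le_rfl, ?_⟩
        show _ = (P.m k + 1) * P.a k + P.v (k+1)
        unfold b; ring
    · right
      constructor
      · show P.mach.CF _ (r - P.out (k, P.m k + 2)) = 0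
        apply P.mach.CF_neg
        rw [P.out_c, h3]; linarith
      · show P.PV (k, P.m k + 1) r
        right
        exact ⟨le_rfl, by show P.m k + 1 ≤ P.m k + 4; omega, h3⟩
    · right
      constructor
      · show P.mach.CF _ (r - P.out (k, P.m k + 3)) = 0
        apply P.mach.CF_neg
        rw [P.out_d, h3]; linarith
      · show P.PV (k, P.m k + 2) r
        right
        exact ⟨by show P.m k + 1 ≤ P.m k + 2; omega, by show P.m k + 2 ≤ P.m k + 4; omega, h3⟩
    · right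
      constructor
      · show P.mach.CF _ (r - P.out (k, P.m k + 4)) = 0
        apply P.mach.CF_neg
        rw [P.out_e le_rfl, h3]; linarith
      · show P.PV (k, P.m k + 3) r
        right
        exact ⟨by show P.m k + 1 ≤ P.m k + 3; omega, by show P.m k + 3 ≤ P.m k + 4; omega, h3⟩

theorem F_v (k : ℕ) : P.F k (P.v k) = 1 := by
  apply le_antisymm
  · apply P.mach.path_unique P.PV PV_step
    right
    exact ⟨by show P.m k + 1 ≤ P.m k + 4; omega, le_rfl, rfl⟩
  · exact Cardinal.one_le_iff_ne_zero.2 (P.F_ne k (P.v_pos k).le (v_lt_T k).le)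

theorem F3_z (k : ℕ) : P.F3 k (P.z k) = 1 := by
  have h1 := P.F3_reflect k (P.v k)
  rw [show P.v k + P.z k - P.v k = P.z k by ring] at h1
  rw [h1]
  have h2 := P.F_v (k := k)
  have hvc := P.v_lt_c k
  have hcd := P.c_lt_d' k
  have hdz := P.d_lt_z' k
  have hze := P.z_lt_e k
  rw [P.F_eq_F4 k (by linarith), P.F4_eq_F3 k (by linarith)] at h2
  exact h2

theorem z_lt_a (k : ℕ) : P.z (k+1) < P.a k := by
  have := P.alpha_pos k; have := P.z_lt_T (k+1); have := P.v_lt_z (k+1); linarith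

theorem a_lt_b (k : ℕ) : P.a k < P.b k := by
  have := P.b_low k; have := P.v_pos (k+1); unfold b; linarith

theorem b_lt_c (k : ℕ) : P.b k < P.c k := (b_lt_v k).trans (P.v_lt_c k)

/-- for small arguments all stages agree with the next level -/
theorem F_small {k : ℕ} {t : ℝ} (h : t < P.a k) : P.F k t = P.F (k+1) t := by
  have h1 := a_lt_b (P := P) k
  have h2 := b_lt_c (P := P) k
  rw [P.F_eq_F2 k (by linarith), P.F2_eq_F1 k (by linarith), P.F1_eq_F k h]

theorem F3_small {k : ℕ} {t : ℝ} (h : t < P.a k) : P.F3 k t = P.F (k+1) t := by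
  have h1 := a_lt_b (P := P) k
  have h2 := b_lt_c (P := P) k
  rw [P.F3_eq_F2 k (by linarith), P.F2_eq_F1 k (by linarith), P.F1_eq_F k h]

theorem F_z_step (hf : P.flag = true) (k : ℕ) : P.F k (P.z k) = 1 + P.F (k+1) (P.z (k+1)) := by
  have hze := P.z_lt_e k
  have hξ := P.ξ_zero hf k
  rw [P.F_eq_F4 k hze, P.F4_step, F3_z]
  have : P.z k - P.d k = P.z (k+1) := by unfold d; rw [hξ]; ring
  rw [this, F3_small (z_lt_a k)]

theorem F_z_ge (hf : P.flag = true) : ∀ j k : ℕ, (j : Cardinal) ≤ P.F k (P.z k) := by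
  intro j
  induction j with
  | zero => intro k; simp
  | succ j ih =>
    intro k
    rw [F_z_step hf]
    push_cast
    rw [add_comm]
    exact add_le_add le_rfl (ih (k+1))

/-- the path of `z` -/
def PZ (P : Par) (s : ℕ × ℕ) (r : ℝ) : Prop :=
  (s.2 ≤ P.m s.1 + 2 ∧ r = P.z (s.1 + 1)) ∨
    ((s.2 = P.m s.1 + 3 ∨ s.2 = P.m s.1 + 4) ∧ r = P.z s.1)

theorem PZ_step (hf : P.flag = true) : ∀ s r, P.PZ s r → (P.mach.CF (P.mach.g s) r ≤ ℵ₀ ∧
    P.PZ (P.mach.g s) (r - P.mach.f s)) ∨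
      (P.mach.CF (P.mach.g s) (r - P.mach.f s) ≤ ℵ₀ ∧ P.PZ (P.mach.g s) r) := by
  rintro ⟨k, j⟩ r h
  have hza := z_lt_a (P := P) k
  have hab := a_lt_b (P := P) k
  have hbc := b_lt_c (P := P) k
  have hze := P.z_lt_e k
  rcases h with ⟨h1, h2⟩ | ⟨h1, h2⟩
  · simp only at h1 h2
    right
    constructor
    · rw [P.mach.CF_neg]
      · exact zero_le
      · show r - P.out (k, j) < 0
        have hcases : j ≤ P.m k ∨ j = P.m k + 1 ∨ j = P.m k + 2 := by omega
        rcases hcases with h | rfl | rfl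
        · rw [P.out_a h]; linarith
        · rw [P.out_b]; linarith
        · rw [P.out_c]; linarith
    · cases j with
      | zero =>
        show P.PZ (k+1, P.m (k+1) + 4) r
        right
        exact ⟨Or.inr rfl, h2⟩
      | succ j =>
        show P.PZ (k, j) r
        left
        exact ⟨by show j ≤ P.m k + 2; omega, h2⟩
  · simp only at h1 h2
    rcases h1 with rfl | rfl
    · left
      constructor
      · show P.F3 k r ≤ ℵ₀
        rw [h2, F3_z]
        exact Cardinal.one_le_aleph0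
      · show P.PZ (k, P.m k + 2) (r - P.out (k, P.m k + 3))
        rw [P.out_d, h2]
        left
        refine ⟨le_rfl, ?_⟩
        show _ = P.z (k+1)
        unfold d; rw [P.ξ_zero hf k]; ring
    · right
      constructor
      · rw [P.mach.CF_neg]
        · exact zero_le
        · show r - P.out (k, P.m k + 4) < 0
          rw [P.out_e le_rfl, h2]; linarith
      · show P.PZ (k, P.m k + 3) r
        right
        exact ⟨Or.inl rfl, h2⟩

theorem F_z (hf : P.flag = true) (k : ℕ) : P.F k (P.z k) = ℵ₀ := by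
  apply le_antisymm
  · apply P.mach.path_countable P.PZ (PZ_step hf)
    right
    exact ⟨Or.inr rfl, rfl⟩
  · rw [Cardinal.aleph0_le]
    intro n
    exact F_z_ge hf n k

/-- allowed values -/
def Val (P : Par) (x : Cardinal.{0}) : Prop :=
  x = 𝔠 ∨ x = 1 ∨ (∃ j, x = (P.m j : Cardinal) + 1) ∨ (P.flag = true ∧ x = ℵ₀)

theorem val_z (k : ℕ) : P.F k (P.z k) = 𝔠 ∨ (P.flag = true ∧ P.F k (P.z k) = ℵ₀) := by
  by_cases hf : P.flag = true
  · right; exact ⟨hf, F_z hf k⟩
  · left
    by_contra hne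
    have h1 := P.z_lt_T k
    have h2 := P.z_pos k
    have hmem : P.z k ∈ P.N k := ⟨h2.le, by linarith, hne⟩
    have hcd := P.c_lt_d' k
    have hdz := P.d_lt_z' k
    exact hf (top_N' hmem (by linarith) (by linarith)).1

theorem Spec_val {k : ℕ} {s : ℝ} (hs : P.Spec k s) (hb : s < P.b k) : P.Val (P.F2 k s) := by
  have hal := P.alpha_pos k
  have hbh := P.b_high k
  have hap := P.a_pos k
  have hvz := P.v_lt_z (k+1)
  have hle := F_le (P := P) (k+1)
  rw [P.F2_eq_F1 k hb]
  rcases hs with rfl | rfl | rfl | rfl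
  · right; left
    rw [P.F1_eq_F k hal, P.F_reflect, F_v]
  · rw [P.F1_eq_F k (by linarith), P.F_reflect]
    rcases val_z (P := P) (k+1) with h | ⟨h1, h2⟩
    · left; exact h
    · right; right; right; exact ⟨h1, h2⟩
  · right; right; left
    refine ⟨k, ?_⟩
    rw [P.F1_eq k (by unfold b at hb; linarith), P.F_zero_of_gt (k+1) (by linarith),
      show P.a k + P.v (k+1) - P.a k = P.v (k+1) by ring, F_v]
    simp
  · rw [P.F1_eq k (by unfold b at hb; linarith), P.F_zero_of_gt (k+1) (by linarith),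
      show P.a k + P.z (k+1) - P.a k = P.z (k+1) by ring, zero_add]
    rcases val_z (P := P) (k+1) with h | ⟨h1, h2⟩
    · left; rw [h]; exact natmul_cont _
    · right; right; right; refine ⟨h1, ?_⟩; rw [h2]; exact natmul_aleph _

theorem F_val {k : ℕ} {t : ℝ} (h0 : 0 ≤ t) (h1 : t ≤ P.T k) : P.Val (P.F k t) := by
  have key := (cl_N (P := P)).descend (fun k t h => h.1) top_N (fun k t => P.Val (P.F k t))
    (fun k => by right; left; exact P.F_zero k)
    (fun k _ => by
      rcases val_z (P := P) k with h | h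
      · left; exact h
      · right; right; right; exact h)
    (fun k t hb hs => by
      rw [P.F_eq_F2 k (hb.trans (b_lt_c k))]
      exact Spec_val hs hb)
    (fun k t hc hb hs => by
      rw [P.F_eq_F2 k hc, ← P.F2_reflect]
      exact Spec_val hs hb)
    (fun k t _ ht h => by
      rw [F_small (lt_of_le_of_lt ht (T_half_lt_a k))]
      exact h)
  by_cases hne : P.F k t = 𝔠
  · left; exact hne
  · by_cases ht : t ≤ P.T k / 2
    · exact key k t ⟨h0, h1, hne⟩ ht
    · push Not at ht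
      have := key k (P.T k - t) ⟨by linarith, by linarith, by rw [P.F_reflect]; exact hne⟩
        (by linarith)
      rw [P.F_reflect] at this
      exact this

theorem v_anti : Antitone P.v := antitone_nat_of_succ_le (fun k => by
  have h1 := P.b_lt_v (k := k)
  have h2 := P.a_lt_b (k := k)
  have h3 := P.alpha_pos k
  have h4 := P.z_lt_T (k+1)
  have h5 := P.v_lt_z (k+1)
  have h6 := P.z_pos (k+1)
  linarith)

theorem F_down (k : ℕ) {t : ℝ} (ht : t < P.v k) : P.F 0 t = P.F k t := by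
  induction k with
  | zero => rfl
  | succ k ih =>
    have h1 : P.v (k+1) ≤ P.v k := v_anti (Nat.le_succ k)
    have h3 := P.alpha_pos k
    have h4 := P.z_lt_T (k+1)
    have h5 := P.v_lt_z (k+1)
    rw [ih (by linarith), F_small (by linarith)]

theorem F_mult (k : ℕ) : P.F 0 (P.a k + P.v (k+1)) = (P.m k : Cardinal) + 1 := by
  have hbl := P.b_low k
  have hbv := P.b_lt_v (k := k)
  have hbh := P.b_high k
  have hal := P.alpha_pos k
  have hb : P.a k + P.v (k+1) < P.b k := hbl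
  have hbc := b_lt_c (P := P) k
  rw [F_down k (by linarith), P.F_eq_F2 k (by linarith), P.F2_eq_F1 k hb,
    P.F1_eq k (by linarith), P.F_zero_of_gt (k+1) (by linarith),
      show P.a k + P.v (k+1) - P.a k = P.v (k+1) by ring, F_v]
  simp

/-- range of the cardinality function of the construction -/
theorem range_F : Set.range (P.F 0) = {x : Cardinal.{0} | x = 0 ∨ P.Val x} := by
  ext x
  simp only [Set.mem_range]
  constructor
  · rintro ⟨t, rfl⟩
    by_cases h0 : 0 ≤ t
    · by_cases h1 : t ≤ P.T 0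
      · right; exact F_val h0 h1
      · left; exact P.F_zero_of_gt 0 (not_le.1 h1)
    · left; exact P.F_zero_of_neg 0 (not_le.1 h0)
  · rintro (rfl | rfl | rfl | ⟨j, rfl⟩ | ⟨hf, rfl⟩)
    · exact ⟨-1, P.F_zero_of_neg 0 (by norm_num)⟩
    · exact ⟨P.e 0, gen5 0 _ le_rfl (e_le_T4 0)⟩
    · exact ⟨0, P.F_zero 0⟩
    · exact ⟨_, F_mult j⟩
    · exact ⟨_, F_z hf 0⟩

end Par

end Pool.Agent.Lib.P92898d
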